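import Pool.Agent.Lib.MP_05cdf2_gt.Q.QDef
import Pool.Agent.Lib.MP_05cdf2_gt.P.PMain

/-! MP_05cdf2_gt, job Q.QA. From the Torelli group of the surface with one boundary component to its image in the
automorphisms of the surface group.

`gfp_zpowers`: a cyclic group is commutative and finitely generated: `GFP.of_comm` (e.g. for the group
`Multiplicative ℤ ⧸ _` or with a local `CommGroup` instance; or use `GFP.iso` and that `zpowers x` is a quotient of
`Multiplicative ℤ`: `GFP.of_comm (Multiplicative ℤ ⧸ (zpowersHom G x).ker)`, `QuotientGroup.quotientKerEquivRange`).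
`ker_ro`: `φ ∈ (ro g).ker` iff `φ` acts trivially modulo `Rz` iff (`F1`, and `cz` is the conjugation by `ζ ∈ Rz`)
`φ ∈ zpowers (cz g)`.
`HIF_im`: let `K = (zpowers (cz g)).subgroupOf (Tor1 g)`; it is central (`cz_comm`), isomorphic to `zpowers (cz g)`
(`cz_Tor`, `Subgroup.subgroupOfEquivOfLe`), so `HIF K j` for all `j` (`HIF_of_GFP`, `HIF_iso`). `HIF_quot_central` gives
`HIF (Tor1 g ⧸ K) j`, and `Tor1 g ⧸ K` is isomorphic to `(Tor1 g).map (ro g)` (the homomorphism
`Tor1 g → (Tor1 g).map (ro g)` is surjective with kernel `K`; `QuotientGroup.quotientKerEquivOfSurjective` and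
`QuotientGroup.quotientMulEquivOfEq`). -/

set_option autoImplicit false

namespace TorQ
open TorM Tor TorP TorG TorE

variable {g : ℕ}

theorem gfp_zpowers {G : Type} [Group G] (x : G) : GFP (Subgroup.zpowers x) := by
  have h1 : GFP (Multiplicative ℤ ⧸ (zpowersHom G x).ker) :=
    GFP.of_comm (Multiplicative ℤ ⧸ (zpowersHom G x).ker)
  have h2 : (zpowersHom G x).range = Subgroup.zpowers x := by
    ext y
    constructor
    · rintro ⟨n, hn⟩
      exact ⟨Multiplicative.toAdd n, hn⟩
    · rintro ⟨n, hn⟩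
      exact ⟨Multiplicative.ofAdd n, hn⟩
  exact GFP.iso ((QuotientGroup.quotientKerEquivRange (zpowersHom G x)).trans
    (MulEquiv.subgroupCongr h2)) h1

theorem ker_ro (hg : 2 ≤ g) : (ro g).ker = Subgroup.zpowers (cz g) := by
  apply le_antisymm
  · intro φ hφ
    apply F1 hg
    intro w
    have h1 : ro g φ (pr g w) = pr g w := by
      have h2 : ro g φ = 1 := hφ
      rw [h2]
      rfl
    rw [ro_pr] at h1
    rw [← pr_eq_one, pr_mul, pr_inv, h1, mul_inv_cancel]
  · rw [Subgroup.zpowers_le]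
    show ro g (cz g) = 1
    ext x
    obtain ⟨w, rfl⟩ := pr_surj x
    rw [ro_pr, cz_apply, pr_mul, pr_mul, pr_inv, pr_zeta]
    simp

theorem HIF_im (hg : 2 ≤ g) (k : ℕ) (h : ∀ j ≤ k, HIF (Tor1 g) j) :
    ∀ j ≤ k, HIF ((Tor1 g).map (ro g)) j := by
  have hc : ∀ γ : Tor1 g, ∀ z ∈ (Subgroup.zpowers (cz g)).subgroupOf (Tor1 g), γ * z = z * γ := by
    rintro γ z hz
    rw [Subgroup.mem_subgroupOf] at hz
    obtain ⟨n, hn⟩ := hz
    apply Subtype.ext
    show (γ : Gam g) * (z : Gam g) = (z : Gam g) * (γ : Gam g)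
    have h1 : Commute (γ : Gam g) (cz g) := cz_comm _
    have h2 : Commute (γ : Gam g) (cz g ^ n) := h1.zpow_right n
    have h3 : cz g ^ n = (z : Gam g) := hn
    rw [← h3]
    exact h2
  have hN : ((Subgroup.zpowers (cz g)).subgroupOf (Tor1 g)).Normal := by
    refine ⟨fun z hz γ => ?_⟩
    rw [hc γ z hz, mul_assoc, mul_inv_cancel, mul_one]
    exact hz
  have hle : Subgroup.zpowers (cz g) ≤ Tor1 g := by
    rw [Subgroup.zpowers_le]
    exact cz_Tor g
  have hK : ∀ j ≤ k, HIF ((Subgroup.zpowers (cz g)).subgroupOf (Tor1 g)) j := fun j _ =>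
    HIF_iso (Subgroup.subgroupOfEquivOfLe hle).symm j (HIF_of_GFP (gfp_zpowers (cz g)) j)
  have hQ := HIF_quot_central ((Subgroup.zpowers (cz g)).subgroupOf (Tor1 g)) k h hK hc
  intro j hj
  have hker : ((ro g).subgroupMap (Tor1 g)).ker = (Subgroup.zpowers (cz g)).subgroupOf (Tor1 g) := by
    ext z
    rw [Subgroup.mem_subgroupOf, ← ker_ro hg]
    constructor
    · intro hz
      have h1 : (ro g).subgroupMap (Tor1 g) z = 1 := hz
      exact congrArg Subtype.val h1
    · intro hz
      have h1 : ro g (z : Gam g) = 1 := hz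
      exact Subtype.ext h1
  exact HIF_iso ((QuotientGroup.quotientMulEquivOfEq hker.symm).trans
    (QuotientGroup.quotientKerEquivOfSurjective ((ro g).subgroupMap (Tor1 g))
      ((ro g).subgroupMap_surjective (Tor1 g)))) j (hQ j hj)

end TorQ
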