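import Pool.Agent.Lib.MP_05cdf2_gt.Q.QFox

/-! MP_05cdf2_gt, job Q.QCen. The centre of the surface group is trivial for `g ≥ 2` (Euler characteristic argument).

Let `u ∈ Pg g` be central, `u ≠ 1`, and `w` with `pr w = u`; `m₀ = D w`, `dd1 m₀ = sg u - 1` (`dd1_D`). `sg u` is central
in `La` (`GA_ext` or induction). For every generator `i` let `x_i = sg (pr (of i))` and
`n_i = (sg u - 1) • e_i - (x_i - 1) • m₀`, `e_i = Pi.single i 1`. Then
`dd1 n_i = (u - 1)(x_i - 1) - (x_i - 1)(u - 1) = 0`, so `n_i = c_i • D ζ` (`exact1`).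
Let `z_i = D ζ i`. As `dd1 (D ζ) = 0` (`dd1_D`, `pr_zeta`), `∑ z_i (x_i - 1) = 0`, and `∑ z_i • e_i = D ζ`:
`(∑ z_i c_i) • D ζ = ∑ z_i • n_i = ∑ z_i (u - 1) • e_i - (∑ z_i (x_i - 1)) • m₀ = (u - 1) • D ζ` (`sg u` central), so
`∑ z_i c_i = sg u - 1` (`inj2`).
Let `t : La → ℤ` be the coefficient at `1`: additive, `t (a * b) = t (b * a)` (check on group elements:
`v v' = 1 ↔ v' v = 1`). `t (sg u - 1) = - 1`.
Take the coordinate `i` of `n_i = c_i • D ζ`, apply `t` and sum over `i`: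
 left: `∑ t ((u - 1) - (x_i - 1) (m₀ i)) = - 2 g - ∑ t ((m₀ i) (x_i - 1)) = - 2 g - t (dd1 m₀) = - 2 g + 1`;
 right: `∑ t (c_i z_i) = ∑ t (z_i c_i) = t (sg u - 1) = - 1`.
So `2 g = 2`, a contradiction. -/

set_option autoImplicit false

namespace TorQ
open TorM Tor TorP TorG Finsupp

variable {g : ℕ}

/-- the coefficient at `1` -/
private noncomputable def QCen_t (G : Type) [Group G] : GA G →+ ℤ where
  toFun x := x.coeff 1
  map_zero' := rfl
  map_add' _ _ := rfl

private theorem QCen_t_sg {G : Type} [Group G] (u v : G) (h : u = 1 ↔ v = 1) :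
    QCen_t G (sg u) = QCen_t G (sg v) := by
  show (Finsupp.single u (1 : ℤ)) 1 = (Finsupp.single v (1 : ℤ)) 1
  by_cases h1 : u = 1
  · rw [h1, h.1 h1]
  · have h2 : v ≠ 1 := fun h3 => h1 (h.2 h3)
    rw [Finsupp.single_eq_of_ne (Ne.symm h1), Finsupp.single_eq_of_ne (Ne.symm h2)]

/-- the coefficient at `1` is a trace -/
theorem tr_comm {G : Type} [Group G] (a b : GA G) : (a * b).coeff 1 = (b * a).coeff 1 := by
  have h1 : ∀ u : G, (QCen_t G).comp (AddMonoidHom.mulLeft (sg u)) =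
      (QCen_t G).comp (AddMonoidHom.mulRight (sg u)) := by
    intro u
    apply GA_ext
    intro v
    show QCen_t G (sg u * sg v) = QCen_t G (sg v * sg u)
    rw [← sg_mul, ← sg_mul]
    refine QCen_t_sg _ _ ⟨fun h => ?_, fun h => ?_⟩
    · exact mul_eq_one_comm.1 h
    · exact mul_eq_one_comm.1 h
  have h2 : (QCen_t G).comp (AddMonoidHom.mulRight b) =
      (QCen_t G).comp (AddMonoidHom.mulLeft b) := by
    apply GA_ext
    intro u
    exact DFunLike.congr_fun (h1 u) b
  exact DFunLike.congr_fun h2 a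

theorem center_Pg (hg : 2 ≤ g) {u : Pg g} (hu : ∀ v : Pg g, u * v = v * u) : u = 1 := by
  by_contra hne
  have hg0 : NeZero g := ⟨by omega⟩
  obtain ⟨w, hw⟩ := pr_surj u
  obtain ⟨m, hm⟩ : ∃ m : Fm g, m = D w := ⟨_, rfl⟩
  have hdm : dd1 g m = sg u - 1 := by
    rw [hm, dd1_D, hw]
  -- `sg u` is central
  have hcen : ∀ a : La g, sg u * a = a * sg u := by
    intro a
    have h1 : AddMonoidHom.mulLeft (sg u) = AddMonoidHom.mulRight (sg u) := by
      apply GA_ext
      intro v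
      show sg u * sg v = sg v * sg u
      rw [← sg_mul, ← sg_mul, hu v]
    exact DFunLike.congr_fun h1 a
  obtain ⟨x, hx⟩ : ∃ x : Gen g → La g, x = fun i => sg (pr g (FreeGroup.of i)) := ⟨_, rfl⟩
  have hdd : ∀ v : Fm g, dd1 g v = ∑ i, v i * (x i - 1) := by
    intro v
    rw [dd1_apply, hx]
  obtain ⟨n, hn⟩ : ∃ n : Gen g → Fm g, n = fun i =>
    (sg u - 1 : La g) • (Pi.single i 1 : Fm g) - (x i - 1) • m := ⟨_, rfl⟩
  have hdn : ∀ i, dd1 g (n i) = 0 := by
    intro i
    have h1 : dd1 g (Pi.single i 1 : Fm g) = x i - 1 := by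
      rw [← D_of, dd1_D, hx]
    rw [hn]
    show dd1 g ((sg u - 1 : La g) • (Pi.single i 1 : Fm g) - (x i - 1) • m) = 0
    rw [map_sub, map_smul, map_smul, h1, hdm, smul_eq_mul, smul_eq_mul,
      sub_mul (sg u) 1 (x i - 1), hcen (x i - 1), one_mul, mul_sub (x i - 1) (sg u) 1, mul_one,
      sub_self]
  choose c hc using fun i => exact1 (hdn i)
  obtain ⟨z, hz⟩ : ∃ z : Fm g, z = D (zeta g) := ⟨_, rfl⟩
  have hcz : ∀ i, n i = c i • z := by
    intro i
    rw [hz]
    exact hc i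
  have hzx : ∑ i, z i * (x i - 1) = 0 := by
    rw [← hdd, hz, dd1_D, pr_zeta, sg_one, sub_self]
  have hsum1 : ∑ i, z i • n i = (∑ i, z i * c i) • z := by
    rw [Finset.sum_smul]
    refine Finset.sum_congr rfl fun i _ => ?_
    rw [hcz, mul_smul]
  have hsum2 : ∑ i, z i • n i = (sg u - 1 : La g) • z := by
    have h1 : ∀ i, z i • n i = (sg u - 1 : La g) • (z i • (Pi.single i 1 : Fm g)) -
        (z i * (x i - 1)) • m := by
      intro i
      rw [hn]
      show z i • ((sg u - 1 : La g) • (Pi.single i 1 : Fm g) - (x i - 1) • m) = _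
      rw [smul_sub, ← mul_smul, ← mul_smul, ← mul_smul]
      congr 2
      rw [sub_mul, mul_sub, hcen, one_mul, mul_one]
    rw [Finset.sum_congr rfl fun i _ => h1 i, Finset.sum_sub_distrib, ← Finset.sum_smul, hzx,
      zero_smul, sub_zero, ← Finset.smul_sum]
    congr 1
    funext j
    rw [Finset.sum_apply, Finset.sum_eq_single j]
    · rw [Pi.smul_apply, Pi.single_eq_same, smul_eq_mul, mul_one]
    · intro i _ hij
      rw [Pi.smul_apply, Pi.single_eq_of_ne (Ne.symm hij), smul_zero]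
    · intro h
      exact absurd (Finset.mem_univ j) h
  have hzc : ∑ i, z i * c i = sg u - 1 := by
    have h1 : ((∑ i, z i * c i) - (sg u - 1 : La g)) • D (zeta g) = 0 := by
      rw [← hz, sub_smul, ← hsum1, ← hsum2, sub_self]
    exact sub_eq_zero.1 (inj2 h1)
  obtain ⟨T, hT⟩ : ∃ T : La g →+ ℤ, T = QCen_t (Pg g) := ⟨_, rfl⟩
  have hTc : ∀ a b : La g, T (a * b) = T (b * a) := by
    intro a b
    rw [hT]
    exact tr_comm a b
  have hTu : T (sg u - 1) = -1 := by
    rw [hT, ← sg_one, map_sub]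
    show (Finsupp.single u (1 : ℤ)) 1 - (Finsupp.single (1 : Pg g) (1 : ℤ)) 1 = -1
    rw [Finsupp.single_eq_of_ne (Ne.symm hne), Finsupp.single_eq_same, zero_sub]
  have hL : ∑ i, T (n i i) = -(2 * (g : ℤ)) + 1 := by
    have h1 : ∀ i, T (n i i) = -1 - T (m i * (x i - 1)) := by
      intro i
      have h2 : n i i = (sg u - 1) - (x i - 1) * m i := by
        rw [hn]
        show ((sg u - 1 : La g) • (Pi.single i 1 : Fm g) - (x i - 1) • m) i = _
        rw [Pi.sub_apply, Pi.smul_apply, Pi.smul_apply, Pi.single_eq_same, smul_eq_mul,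
          smul_eq_mul, mul_one]
      rw [h2, map_sub, hTu, hTc]
    rw [Finset.sum_congr rfl fun i _ => h1 i, Finset.sum_sub_distrib, ← map_sum, ← hdd, hdm, hTu,
      Finset.sum_const, Finset.card_univ, Fintype.card_sum, Fintype.card_fin, nsmul_eq_mul]
    push_cast
    ring
  have hR : ∑ i, T (n i i) = -1 := by
    have h1 : ∀ i, T (n i i) = T (z i * c i) := by
      intro i
      have h2 : n i i = c i * z i := by
        rw [hcz, Pi.smul_apply, smul_eq_mul]
      rw [h2, hTc]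
    rw [Finset.sum_congr rfl fun i _ => h1 i, ← map_sum, hzc, hTu]
  rw [hL] at hR
  omega

end TorQ
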