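import Pool.Agent.Lib.MP_05cdf2_gt.Q.QMap
import Pool.Agent.Lib.MP_05cdf2_gt.G.Symp

/-! MP_05cdf2_gt, job Q.QTriv. An element of the Torelli group acts trivially on the homology of the surface group.

`φ ∈ Tor1 g`, `α = ro g φ`.
`Fq_sub`: `Fq φ c - Fq 1 c ∈ KL ⊤ (Pg g)` for every chain `c`. On lists: `[]`: `0`. `[u]`: `[α u] - [u]` is
`aL (α u u⁻¹) [u] - [u]`. `[u, v]`: `f1 (Ph1 φ m) - f1 (Ph1 1 m)`, `Ph1 1 m = m` (`m = ∑ m_i • e_i`, `D_of`, `am id = id`;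
`ro g 1 = 1`). By additivity (`GA_ext`, `Pi.single`) for `m = sg v • e_i`: modulo `KL`, `ac (sg v) c` is `c`, so it is
`f1 (D (φ x_i)) - f1 (e_i)`; and `f1 n = ∑ ac (n_j) [1, x_j]` is `∑ ag (n_j) [1, x_j]` modulo `KL`, and
`ag (D w j) = abv w j` (`FreeGroup.induction_on`), `abv (φ x_i) = abv x_i` (`mem_Tor1`), so the difference is in `KL`.
`[u, v, t]`: `f2 (am α c) - f2 (am id c)`, `c = sg v`: `ac (sg (α v)) c₀ - ac (sg v) c₀ ∈ KL`. Longer lists: `0`.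
`triv_action`: for `z ∈ ZL ⊤ (Pg g) q`: `mp α z - Fq φ z ∈ BL` (`homot`, `sch_mp`, `sch_Fq`), `Fq φ z - Fq 1 z ∈ KL ≤ BL`
(`Fq_sub`), `Fq 1 z - z ∈ BL` (`homot`, `sch_Fq 1`, `sch_id`, `(ro g 1).toMonoidHom = MonoidHom.id _`). -/

set_option autoImplicit false

namespace TorQ
open TorM Tor TorP TorG Finsupp TorE

variable {g : ℕ}

theorem ag_D (w : F g) (j : Gen g) : ag (Pg g) (D w j) = abv w j := by
  induction w using FreeGroup.induction_on with
  | C1 =>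
    rw [D_one, abv_one, Pi.zero_apply, Pi.zero_apply, map_zero]
  | of i =>
    rw [D_of, abv_of, Pi.single_apply, Pi.single_apply]
    split_ifs
    · exact map_one _
    · exact map_zero _
  | inv_of i h =>
    rw [D_inv, abv_inv, Pi.neg_apply, Pi.neg_apply, Pi.smul_apply, smul_eq_mul, map_neg, map_mul, h,
      ag_sg, one_mul]
  | mul x y hx hy =>
    rw [D_mul, abv_mul, Pi.add_apply, Pi.add_apply, Pi.smul_apply, smul_eq_mul, map_add, map_mul,
      hx, hy, ag_sg, one_mul]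

/-- the augmentation is invariant -/
theorem QTriv_ag_am {G H : Type} [Group G] [Group H] (α : G →* H) (r : GA G) :
    ag H (am α r) = ag G r := by
  have h : (ag H).toRingHom.toAddMonoidHom.comp (am α).toAddMonoidHom =
      (ag G).toRingHom.toAddMonoidHom := by
    apply GA_ext
    intro u
    change ag H (am α (sg u)) = ag G (sg u)
    rw [am_sg, ag_sg, ag_sg]
  exact DFunLike.congr_fun h r

/-- modulo `KL` the group ring acts by the augmentation -/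
theorem QTriv_ac (r : La g) (c : Ch (Pg g)) :
    (KL (⊤ : Subgroup (Pg g)) (Pg g)).mkQ (ac r c) =
      ag (Pg g) r • (KL (⊤ : Subgroup (Pg g)) (Pg g)).mkQ c := by
  have h : ((KL (⊤ : Subgroup (Pg g)) (Pg g)).mkQ.toAddMonoidHom.comp
      (LinearMap.applyₗ (R := ℤ) c).toAddMonoidHom).comp
        (ac (G := Pg g) (α := Pg g)).toRingHom.toAddMonoidHom =
      (AddMonoidHom.flip (smulAddHom ℤ (Ch (Pg g) ⧸ KL (⊤ : Subgroup (Pg g)) (Pg g)))
        ((KL (⊤ : Subgroup (Pg g)) (Pg g)).mkQ c)).comp (ag (Pg g)).toRingHom.toAddMonoidHom := by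
    apply GA_ext
    intro u
    change (KL (⊤ : Subgroup (Pg g)) (Pg g)).mkQ (ac (sg u) c) =
      ag (Pg g) (sg u) • (KL (⊤ : Subgroup (Pg g)) (Pg g)).mkQ c
    rw [ac_sg, ag_sg, one_smul, ← sub_eq_zero, ← map_sub, Submodule.mkQ_apply,
      Submodule.Quotient.mk_eq_zero]
    exact KL_single (Subgroup.mem_top u) c
  exact DFunLike.congr_fun h r

theorem QTriv_f1 (m : Fm g) :
    (KL (⊤ : Subgroup (Pg g)) (Pg g)).mkQ (f1 g m) =
      ∑ i, ag (Pg g) (m i) • (KL (⊤ : Subgroup (Pg g)) (Pg g)).mkQ (e12 g i) := by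
  change (KL (⊤ : Subgroup (Pg g)) (Pg g)).mkQ (∑ i, ac (m i) (e12 g i)) = _
  rw [map_sum]
  exact Finset.sum_congr rfl fun i _ => QTriv_ac (m i) (e12 g i)

theorem QTriv_Ph1 {φ : Gam g} (hφ : φ ∈ Tor1 g) (m : Fm g) (j : Gen g) :
    ag (Pg g) (Ph1 φ m j) = ag (Pg g) (m j) := by
  have h1 : Ph1 φ m j = ∑ i, am (ro g φ).toMonoidHom (m i) *
      D ((φ : MulAut (F g)) (FreeGroup.of i)) j := by
    change (∑ i, am (ro g φ).toMonoidHom (m i) • D ((φ : MulAut (F g)) (FreeGroup.of i))) j = _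
    rw [Finset.sum_apply]
    rfl
  rw [h1, map_sum]
  have h2 : ∀ i ∈ Finset.univ, ag (Pg g) (am (ro g φ).toMonoidHom (m i) *
      D ((φ : MulAut (F g)) (FreeGroup.of i)) j) =
      if j = i then ag (Pg g) (m i) else 0 := by
    intro i _
    rw [map_mul, QTriv_ag_am, ag_D, (mem_Tor1 φ).1 hφ, abv_of, Pi.single_apply]
    split_ifs
    · rw [mul_one]
    · rw [mul_zero]
  rw [Finset.sum_congr rfl h2, Finset.sum_ite_eq, if_pos (Finset.mem_univ j)]

theorem QTriv_list {φ : Gam g} (hφ : φ ∈ Tor1 g) (l : List (Pg g)) :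
    (KL (⊤ : Subgroup (Pg g)) (Pg g)).mkQ (FqL φ l) =
      (KL (⊤ : Subgroup (Pg g)) (Pg g)).mkQ (FqL (1 : Gam g) l) := by
  match l with
  | [] => rfl
  | [u] =>
    change (KL (⊤ : Subgroup (Pg g)) (Pg g)).mkQ (single [ro g φ u] 1) =
      (KL (⊤ : Subgroup (Pg g)) (Pg g)).mkQ (single [ro g 1 u] 1)
    rw [← sub_eq_zero, ← map_sub, Submodule.mkQ_apply, Submodule.Quotient.mk_eq_zero]
    have h := KL_single (N := (⊤ : Subgroup (Pg g))) (Subgroup.mem_top (ro g φ u * (ro g 1 u)⁻¹))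
      (single [ro g 1 u] 1 : Ch (Pg g))
    rw [aL_single, List.map_cons, List.map_nil, smul_eq_mul, inv_mul_cancel_right] at h
    exact h
  | [u, v] =>
    change (KL (⊤ : Subgroup (Pg g)) (Pg g)).mkQ (f1 g (Ph1 φ (hh2 u v))) =
      (KL (⊤ : Subgroup (Pg g)) (Pg g)).mkQ (f1 g (Ph1 1 (hh2 u v)))
    rw [QTriv_f1, QTriv_f1]
    refine Finset.sum_congr rfl fun i _ => ?_
    rw [QTriv_Ph1 hφ, QTriv_Ph1 (Tor1 g).one_mem]
  | [u, v, t] =>
    change (KL (⊤ : Subgroup (Pg g)) (Pg g)).mkQ (f2 g (am (ro g φ).toMonoidHom (ta u v t))) =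
      (KL (⊤ : Subgroup (Pg g)) (Pg g)).mkQ (f2 g (am (ro g 1).toMonoidHom (ta u v t)))
    change (KL (⊤ : Subgroup (Pg g)) (Pg g)).mkQ (ac (am (ro g φ).toMonoidHom (ta u v t))
        (cone (1 : Pg g) (f1 g (D (zeta g))))) =
      (KL (⊤ : Subgroup (Pg g)) (Pg g)).mkQ (ac (am (ro g 1).toMonoidHom (ta u v t))
        (cone (1 : Pg g) (f1 g (D (zeta g)))))
    rw [QTriv_ac, QTriv_ac, QTriv_ag_am, QTriv_ag_am]
  | _ :: _ :: _ :: _ :: _ => rfl

theorem Fq_sub [NeZero g] {φ : Gam g} (hφ : φ ∈ Tor1 g) (c : Ch (Pg g)) :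
    Fq φ c - Fq (1 : Gam g) c ∈ KL (⊤ : Subgroup (Pg g)) (Pg g) := by
  have h : (KL (⊤ : Subgroup (Pg g)) (Pg g)).mkQ ∘ₗ Fq φ =
      (KL (⊤ : Subgroup (Pg g)) (Pg g)).mkQ ∘ₗ Fq (1 : Gam g) := by
    apply Ch.ext_lin
    intro l
    rw [LinearMap.comp_apply, LinearMap.comp_apply]
    unfold Fq
    rw [Finsupp.linearCombination_single, Finsupp.linearCombination_single, one_smul, one_smul]
    exact QTriv_list hφ l
  have h2 := LinearMap.congr_fun h c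
  rw [LinearMap.comp_apply, LinearMap.comp_apply, ← sub_eq_zero, ← map_sub, Submodule.mkQ_apply,
    Submodule.Quotient.mk_eq_zero] at h2
  exact h2

theorem triv_action [NeZero g] {φ : Gam g} (hφ : φ ∈ Tor1 g) (q : ℕ) (z : Ch (Pg g))
    (hz : z ∈ ZL (⊤ : Subgroup (Pg g)) (Pg g) q) :
    mp (ro g φ : Pg g → Pg g) z - z ∈ BL (⊤ : Subgroup (Pg g)) (Pg g) q := by
  have h1 := homot (sch_mp (ro g φ).toMonoidHom) (sch_Fq φ) q z hz
  have h2 : Fq φ z - Fq (1 : Gam g) z ∈ BL (⊤ : Subgroup (Pg g)) (Pg g) q :=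
    Submodule.mem_sup_right (Fq_sub hφ z)
  have h3 : (ro g (1 : Gam g)).toMonoidHom = MonoidHom.id (Pg g) := by
    rw [map_one]
    rfl
  have h4 := sch_Fq (1 : Gam g)
  rw [h3] at h4
  have h5 := homot h4 sch_id q z hz
  have h6 := Submodule.add_mem _ (Submodule.add_mem _ h1 h2) h5
  have h7 : mp (ro g φ : Pg g → Pg g) z - z =
      mp (ro g φ).toMonoidHom z - Fq φ z + (Fq φ z - Fq (1 : Gam g) z) +
        (Fq (1 : Gam g) z - (LinearMap.id : Ch (Pg g) →ₗ[ℤ] Ch (Pg g)) z) := by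
    change mp (ro g φ : Pg g → Pg g) z - z =
      mp (ro g φ : Pg g → Pg g) z - Fq φ z + (Fq φ z - Fq (1 : Gam g) z) +
        (Fq (1 : Gam g) z - z)
    abel
  rw [h7]
  exact h6

end TorQ
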