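import Pool.Agent.Lib.MP_05cdf2_gt.Q.QGfp
import Pool.Agent.Lib.MP_05cdf2_gt.Q.QCen
import Pool.Agent.Lib.MP_05cdf2_gt.Q.QTriv
import Pool.Agent.Lib.MP_05cdf2_gt.P.PMain

/-! MP_05cdf2_gt, job Q.QB. The quotient by the inner automorphisms.

`G2 = (Tor1 g).map (ro g)`, `Inn = (MulAut.conj : Pg g →* MulAut (Pg g)).range`.
`inn_le`: `F2`: the conjugation by `pr u` is `ro g φ` with `φ ∈ Tor1 g`.
`inn_normal`: `α (conj u) α⁻¹ = conj (α u)`.
`HIF_out`: `K = Inn.subgroupOf G2` is normal, and `e : K ≃* Pg g`, the inverse of `u ↦ conj u` (injective by `center_Pg`: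
`conj u = 1` means that `u` is central; surjective on `Inn`). `HIF K j` for all `j`: `gfp_Pg`, `HIF_of_GFP`, `HIF_iso`.
Condition `hT` of `HIF_quot`: for `γ = ro g φ ∈ G2`, `φ ∈ Tor1 g`, `e (γ x γ⁻¹) = γ (e x)`. For `z ∈ ZL ⊤ K q`:
`mp e z ∈ ZL ⊤ (Pg g) q` (`mp_ZL` with `Eqv ⊤ ⊤ e e`), `mp e (mp (conjNormal γ) z) = mp γ (mp e z)` (`ECvB_mp_comp`), so by
`triv_action` `mp e (mp (conjNormal γ) z - z) ∈ BL ⊤ (Pg g) q`; apply `mp e.symm` (`mp_BL`, `ECvB_mp_comp`, `ECvB_mp_id`).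
`HIF_quot` gives `HIF (G2 ⧸ K) j`. Finally `G2 ⧸ K ≃* G2.map (QuotientGroup.mk' Inn)`: the homomorphism
`G2 → G2.map (mk' Inn)` is surjective with kernel `Inn.subgroupOf G2`
(`QuotientGroup.quotientKerEquivOfSurjective`, `QuotientGroup.quotientMulEquivOfEq`). -/

set_option autoImplicit false

namespace TorQ
open TorM Tor TorP TorG TorE

/-- the inner automorphisms -/
def Inn (G : Type) [Group G] : Subgroup (MulAut G) := (MulAut.conj : G →* MulAut G).range

instance inn_normal (G : Type) [Group G] : (Inn G).Normal := by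
  refine ⟨?_⟩
  rintro _ ⟨u, rfl⟩ a
  refine ⟨a u, ?_⟩
  ext x
  simp only [MulAut.conj_apply, MulAut.mul_apply, map_mul, map_inv, MulAut.apply_inv_self]

variable {g : ℕ}

theorem inn_le (g : ℕ) : Inn (Pg g) ≤ (Tor1 g).map (ro g) := by
  rintro _ ⟨x, rfl⟩
  obtain ⟨u, rfl⟩ := pr_surj x
  obtain ⟨φ, hφ, h⟩ := F2 (g := g) u
  refine ⟨φ, hφ, ?_⟩
  ext y
  obtain ⟨w, rfl⟩ := pr_surj y
  rw [ro_pr, MulAut.conj_apply]
  have h1 := pr_eq_one.2 (h w)
  rw [pr_mul, pr_inv, mul_inv_eq_one] at h1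
  rw [h1, pr_mul, pr_mul, pr_inv]

theorem QB_conj_inj (hg : 2 ≤ g) {u : Pg g} (h : MulAut.conj u = 1) : u = 1 := by
  refine center_Pg hg fun v => ?_
  have h1 : MulAut.conj u v = v := by
    rw [h]
    rfl
  rw [MulAut.conj_apply, mul_inv_eq_iff_eq_mul] at h1
  exact h1

/-- the conjugations in a subgroup `S` that contains them -/
noncomputable def QB_hom (S : Subgroup (MulAut (Pg g))) (hS : Inn (Pg g) ≤ S) :
    Pg g →* ((Inn (Pg g)).subgroupOf S) where
  toFun u := ⟨⟨MulAut.conj u, hS ⟨u, rfl⟩⟩, ⟨u, rfl⟩⟩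
  map_one' := by
    apply Subtype.ext
    apply Subtype.ext
    exact map_one _
  map_mul' u v := by
    apply Subtype.ext
    apply Subtype.ext
    exact map_mul _ _ _

theorem QB_hom_val (S : Subgroup (MulAut (Pg g))) (hS : Inn (Pg g) ≤ S) (u : Pg g) :
    (((QB_hom S hS u : (Inn (Pg g)).subgroupOf S) : S) : MulAut (Pg g)) = MulAut.conj u := rfl

theorem QB_hom_bij (hg : 2 ≤ g) (S : Subgroup (MulAut (Pg g))) (hS : Inn (Pg g) ≤ S) :
    Function.Bijective (QB_hom S hS) := by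
  constructor
  · rw [injective_iff_map_eq_one]
    intro u hu
    refine QB_conj_inj hg ?_
    rw [← QB_hom_val S hS u, hu]
    rfl
  · rintro ⟨⟨x, hx⟩, hx2⟩
    obtain ⟨u, hu⟩ := hx2
    refine ⟨u, ?_⟩
    apply Subtype.ext
    apply Subtype.ext
    exact hu

theorem QB_quot {M : Type} [Group M] (S I : Subgroup M) [I.Normal] :
    Nonempty ((S ⧸ I.subgroupOf S) ≃* S.map (QuotientGroup.mk' I)) := by
  let f : S →* S.map (QuotientGroup.mk' I) :=
    { toFun := fun x => ⟨QuotientGroup.mk' I x, ⟨x, x.2, rfl⟩⟩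
      map_one' := Subtype.ext (map_one _)
      map_mul' := fun x y => Subtype.ext (map_mul _ _ _) }
  have hf : Function.Surjective f := by
    rintro ⟨_, x, hx, rfl⟩
    exact ⟨⟨x, hx⟩, rfl⟩
  have hk : I.subgroupOf S = f.ker := by
    ext x
    rw [MonoidHom.mem_ker, Subgroup.mem_subgroupOf]
    constructor
    · intro h
      apply Subtype.ext
      exact (QuotientGroup.eq_one_iff (x : M)).2 h
    · intro h
      exact (QuotientGroup.eq_one_iff (x : M)).1 (congrArg Subtype.val h)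
  exact ⟨(QuotientGroup.quotientMulEquivOfEq hk).trans (QuotientGroup.quotientKerEquivOfSurjective f hf)⟩

theorem HIF_out (hg : 2 ≤ g) (k : ℕ) (h : ∀ j ≤ k, HIF ((Tor1 g).map (ro g)) j) :
    ∀ j ≤ k, HIF (((Tor1 g).map (ro g)).map (QuotientGroup.mk' (Inn (Pg g)))) j := by
  have : NeZero g := ⟨by omega⟩
  have hS : Inn (Pg g) ≤ (Tor1 g).map (ro g) := inn_le g
  let e' : Pg g ≃* (Inn (Pg g)).subgroupOf ((Tor1 g).map (ro g)) :=
    MulEquiv.ofBijective (QB_hom _ hS) (QB_hom_bij hg _ hS)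
  have he' : ∀ u : Pg g, (((e' u : (Inn (Pg g)).subgroupOf ((Tor1 g).map (ro g))) :
      ((Tor1 g).map (ro g) : Subgroup (MulAut (Pg g)))) : MulAut (Pg g)) = MulAut.conj u := fun u => rfl
  have hK : ∀ j ≤ k, HIF ((Inn (Pg g)).subgroupOf ((Tor1 g).map (ro g))) j := fun j _ =>
    HIF_iso e' j (HIF_of_GFP (gfp_Pg g) j)
  have key : ∀ j ≤ k, HIF (((Tor1 g).map (ro g) : Subgroup (MulAut (Pg g))) ⧸
      (Inn (Pg g)).subgroupOf ((Tor1 g).map (ro g))) j := by
    refine HIF_quot ((Inn (Pg g)).subgroupOf ((Tor1 g).map (ro g))) k h hK ?_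
    intro γ q _ z hz
    obtain ⟨φ, hφ, hφ2⟩ := γ.2
    have hγ : ∀ u : Pg g, (MulAut.conjNormal γ :
        (Inn (Pg g)).subgroupOf ((Tor1 g).map (ro g)) ≃* (Inn (Pg g)).subgroupOf ((Tor1 g).map (ro g)))
        (e' u) = e' (ro g φ u) := by
      intro u
      apply Subtype.ext
      apply Subtype.ext
      rw [MulAut.conjNormal_apply, Subgroup.coe_mul, Subgroup.coe_mul, Subgroup.coe_inv, he', he', ← hφ2]
      ext x
      simp only [MulAut.conj_apply, MulAut.mul_apply, map_mul, map_inv, MulAut.apply_inv_self]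
    have h1 : Eqv (⊤ : Subgroup (Pg g)) (⊤ : Subgroup ((Inn (Pg g)).subgroupOf ((Tor1 g).map (ro g))))
        (e' : Pg g → _) (e' : Pg g → _) :=
      ⟨fun _ _ => trivial, fun n _ a => map_mul e' n a⟩
    have h2 : Eqv (⊤ : Subgroup ((Inn (Pg g)).subgroupOf ((Tor1 g).map (ro g)))) (⊤ : Subgroup (Pg g))
        (e'.symm : _ → Pg g) (e'.symm : _ → Pg g) :=
      ⟨fun _ _ => trivial, fun n _ a => map_mul e'.symm n a⟩
    have h3 := triv_action hφ q _ (mp_ZL h2 hz)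
    have h4 := mp_BL h1 h3
    rw [map_sub, ECvB_mp_comp, ECvB_mp_comp, ECvB_mp_comp] at h4
    have e1 : ((e' : Pg g → _) ∘ (ro g φ : Pg g → Pg g)) ∘ (e'.symm : _ → Pg g) =
        (MulAut.conjNormal γ : (Inn (Pg g)).subgroupOf ((Tor1 g).map (ro g)) ≃* _) := by
      funext x
      obtain ⟨u, rfl⟩ := e'.surjective x
      rw [Function.comp_apply, Function.comp_apply, e'.symm_apply_apply, ← hγ u]
    have e2 : (e' : Pg g → _) ∘ (e'.symm : _ → Pg g) = id := by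
      funext x
      exact e'.apply_symm_apply x
    rw [e1, e2, ECvB_mp_id] at h4
    exact h4
  intro j hj
  obtain ⟨e⟩ := QB_quot ((Tor1 g).map (ro g)) (Inn (Pg g))
  exact HIF_iso e j (key j hj)

end TorQ
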