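import Pool.Agent.Lib.MP_05cdf2_gt.Q.QA
import Pool.Agent.Lib.MP_05cdf2_gt.Q.QB

/-! MP_05cdf2_gt, job Q.QC. The Torelli group of the closed surface, and the final theorem in terms of `HIF (Tor1 g)`.

`SG g` is the surface group as a presented group; it is by definition `F g ⧸ normalClosure {ζ} = Pg g`.
`torelli_eq`: (as subgroups of the outer automorphism group of `Pg g`) `T g` is the image of `Tor1 g`. If `φ : Gam g`
induces `α` and `α` acts trivially on the abelianisation of `Pg g`, then `abv (φ w) = abv w`: the homomorphism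
`ab : F g → Multiplicative (Gen g → ℤ)` kills `Rz` (`map_zeta`), so it factors through `Pg g` and then through
`Abelianization (Pg g)`, and `Abelianization.of (pr (φ w)) = Abelianization.of (pr w)`; so `φ ∈ Tor1 g` (`mem_Tor1`).
Conversely if `φ ∈ Tor1 g`: `abv (φ w) = abv w`, so `φ w w⁻¹` is in the commutator subgroup of `F g` (`FreeGroup`: the
kernel of the exponent sums is the commutator subgroup: `F g → Abelianization (F g)`, `abelianization of the free group
is free`: it is enough that two homomorphisms `F g → A`, `A` commutative, `w ↦ a(w)` factor through `ab`: for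
`A = Abelianization (Pg g)`, `f w = Abelianization.of (pr w)`, one has `f w = ∏_i f(x_i)^(abv w i)`
(`FreeGroup.induction_on`)), so `f (φ w) = f w`.
`closed_main`: `HIF_im`, `HIF_out`, `groupHomology_finite_of` (D/BrB). `HIF_zero`: `(Fin 0 → N) →₀ ℤ` is generated by one
element. -/

set_option autoImplicit false

namespace TorQ
open TorM Tor TorP TorG TorE

/-- the fundamental group of the closed surface of genus `g` -/
abbrev SG (g : ℕ) : Type := PresentedGroup ({zeta g} : Set (F g))

variable {g : ℕ}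

/-- `α` is induced by an automorphism of the free group which fixes the boundary word -/
def Geom (α : MulAut (SG g)) : Prop :=
  ∃ φ : MulAut (F g), φ (zeta g) = zeta g ∧
    ∀ w : F g, α (PresentedGroup.mk {zeta g} w) = PresentedGroup.mk {zeta g} (φ w)

/-- `α` acts trivially on the first homology -/
def TrivH1 (α : MulAut (SG g)) : Prop :=
  ∀ x : SG g, Abelianization.of (α x) = Abelianization.of x

/-- the Torelli group of the closed surface of genus `g`, in the outer automorphism group of its fundamental group -/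
def T (g : ℕ) : Subgroup (MulAut (SG g) ⧸ Inn (SG g)) where
  carrier := {c | ∃ α : MulAut (SG g), Geom α ∧ TrivH1 α ∧ QuotientGroup.mk α = c}
  one_mem' := ⟨1, ⟨1, rfl, fun _ => rfl⟩, fun _ => rfl, rfl⟩
  mul_mem' := by
    rintro _ _ ⟨α, ⟨φ, h1, h2⟩, h3, rfl⟩ ⟨β, ⟨ψ, h4, h5⟩, h6, rfl⟩
    refine ⟨α * β, ⟨φ * ψ, ?_, fun w => ?_⟩, fun x => ?_, rfl⟩
    · rw [MulAut.mul_apply, h4, h1]
    · rw [MulAut.mul_apply, h5, h2, MulAut.mul_apply]
    · rw [MulAut.mul_apply, h3, h6]
  inv_mem' := by
    rintro _ ⟨α, ⟨φ, h1, h2⟩, h3, rfl⟩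
    refine ⟨α⁻¹, ⟨φ⁻¹, ?_, fun w => ?_⟩, fun x => ?_, rfl⟩
    · conv_lhs => rw [← h1]
      exact MulAut.inv_apply_self _ φ (zeta g)
    · apply α.injective
      rw [h2]
      show α (α⁻¹ _) = _
      rw [MulAut.apply_inv_self, MulAut.apply_inv_self]
    · have h := h3 (α⁻¹ x)
      rw [MulAut.apply_inv_self] at h
      exact h.symm

/-- a homomorphism to a commutative group is determined by the exponent sums -/
theorem QC_ab {A : Type} [CommGroup A] (f : F g →* A) (w : F g) :
    f w = ∏ i, f (FreeGroup.of i) ^ (abv w i) := by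
  induction w using FreeGroup.induction_on with
  | C1 =>
    rw [map_one, abv_one]
    symm
    refine Finset.prod_eq_one fun i _ => ?_
    rw [Pi.zero_apply, zpow_zero]
  | of j =>
    symm
    rw [abv_of, Finset.prod_eq_single j]
    · rw [Pi.single_eq_same, zpow_one]
    · intro i _ hi
      rw [Pi.single_eq_of_ne hi, zpow_zero]
    · intro h
      exact absurd (Finset.mem_univ j) h
  | inv_of j h =>
    rw [map_inv, h, abv_inv, ← Finset.prod_inv_distrib]
    refine Finset.prod_congr rfl fun i _ => ?_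
    rw [Pi.neg_apply, zpow_neg]
  | mul x y hx hy =>
    rw [map_mul, hx, hy, abv_mul, ← Finset.prod_mul_distrib]
    refine Finset.prod_congr rfl fun i _ => ?_
    rw [Pi.add_apply, zpow_add]

/-- the exponent sums on the surface group -/
noncomputable def QC_A (g : ℕ) : Pg g →* Multiplicative (Gen g → ℤ) :=
  QuotientGroup.lift (Rz g) ab (fun x hx => by
    have h : Rz g ≤ (ab : F g →* Multiplicative (Gen g → ℤ)).ker := by
      unfold Rz
      refine Subgroup.normalClosure_le_normal ?_
      rw [Set.singleton_subset_iff]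
      exact map_zeta ab
    exact h hx)

theorem QC_A_pr (w : F g) : QC_A g (pr g w) = ab w := rfl

theorem QC_mem (α : MulAut (Pg g)) (φ : Gam g)
    (h4 : ∀ w : F g, α (pr g w) = pr g ((φ : MulAut (F g)) w))
    (h3 : ∀ x : Pg g, Abelianization.of (α x) = Abelianization.of x) : φ ∈ Tor1 g := by
  rw [mem_Tor1]
  intro w
  have h5 := h3 (pr g w)
  rw [h4] at h5
  have h6 := congrArg (Abelianization.lift (QC_A g)) h5
  rw [Abelianization.lift_apply_of, Abelianization.lift_apply_of, QC_A_pr, QC_A_pr] at h6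
  exact congrArg Multiplicative.toAdd h6

theorem QC_ro (α : MulAut (Pg g)) (φ : Gam g)
    (h4 : ∀ w : F g, α (pr g w) = pr g ((φ : MulAut (F g)) w)) : ro g φ = α := by
  apply MulEquiv.ext
  intro x
  obtain ⟨w, rfl⟩ := pr_surj x
  rw [h4]
  exact ro_pr φ w

theorem torelli_eq (g : ℕ) :
    T g = ((Tor1 g).map (ro g)).map (QuotientGroup.mk' (Inn (Pg g))) := by
  apply le_antisymm
  · rintro c ⟨α, ⟨φ, h1, h2⟩, h3, rfl⟩
    exact ⟨(α : MulAut (Pg g)), ⟨(⟨φ, h1⟩ : Gam g), QC_mem α ⟨φ, h1⟩ h2 h3, QC_ro α ⟨φ, h1⟩ h2⟩, rfl⟩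
  · rintro c ⟨_, ⟨φ, hφ, rfl⟩, rfl⟩
    refine ⟨ro g φ, ⟨(φ : MulAut (F g)), φ.2, fun w => rfl⟩, ?_, rfl⟩
    intro x
    obtain ⟨w, rfl⟩ := pr_surj x
    have h7 : (Abelianization.of (pr g ((φ : MulAut (F g)) w)) : Abelianization (Pg g)) =
        Abelianization.of (pr g w) := by
      let f : F g →* Abelianization (Pg g) :=
        (Abelianization.of).comp (QuotientGroup.mk' (Rz g))
      have h8 := QC_ab f ((φ : MulAut (F g)) w)
      rw [(mem_Tor1 φ).1 hφ w, ← QC_ab f w] at h8
      exact h8
    exact h7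

theorem HIF_zero (N : Type) [Group N] : HIF N 0 := by
  classical
  refine ⟨{Finsupp.single default 1}, fun z _ => Submodule.mem_top, fun x _ => ⟨x, ?_, 0, ?_⟩⟩
  · have e : x = x default • (Finsupp.single default 1 : (Fin 0 → N) →₀ ℤ) := by
      rw [Finsupp.smul_single, smul_eq_mul, mul_one]
      exact Finsupp.unique_single x
    rw [e]
    refine AddSubgroup.zsmul_mem _ (AddSubgroup.subset_closure ?_) _
    rw [Finset.coe_singleton]
    exact Set.mem_singleton _
  · rw [map_zero, add_zero]

theorem closed_main (hg : 2 ≤ g) (k : ℕ) (h : ∀ j ≤ k, HIF (Tor1 g) j) :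
    Module.Finite ℤ (groupHomology (Rep.trivial ℤ (T g) ℤ) k) := by
  apply groupHomology_finite_of
  rw [torelli_eq]
  exact HIF_out hg k (HIF_im hg k h) k le_rfl

end TorQ
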