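import Pool.Agent.Lib.MP_05cdf2_gt.P.PDef
import Pool.Agent.Lib.MP_05cdf2_gt.E.EMain

/-! MP_05cdf2_gt, stream Q (helper61): the group of the closed surface. Definitions.

`Pg g = F g ⧸ Rz g`. Fox calculus: `D : F g → Fm g`, `D (u v) = D u + u D v`, with values in the free module with basis
`Gen g` over the group ring of `Pg g`. The resolution `0 → GA → Fm → GA → ℤ → 0`: `dd2 r = r • D ζ`,
`dd1 m = ∑ m_i (x_i - 1)`. -/

set_option autoImplicit false

namespace TorQ
open TorM Tor TorP Finsupp

/-- the group of the closed surface of genus `g` -/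
abbrev Pg (g : ℕ) : Type := F g ⧸ Rz g

/-- its group ring -/
abbrev La (g : ℕ) : Type := GA (Pg g)

/-- the free module with basis the generators -/
abbrev Fm (g : ℕ) : Type := Gen g → La g

/-- a group element in the group ring -/
noncomputable def sg {G : Type} [Group G] (u : G) : GA G := MonoidAlgebra.of ℤ G u

theorem sg_mul {G : Type} [Group G] (u v : G) : sg (u * v) = sg u * sg v := map_mul _ _ _

theorem sg_one {G : Type} [Group G] : sg (1 : G) = 1 := map_one _

/-- an element of the free group in the group of the closed surface -/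
def pr (g : ℕ) (w : F g) : Pg g := QuotientGroup.mk w

theorem pr_mul {g : ℕ} (u v : F g) : pr g (u * v) = pr g u * pr g v := rfl

theorem pr_one {g : ℕ} : pr g 1 = 1 := rfl

theorem pr_inv {g : ℕ} (u : F g) : pr g u⁻¹ = (pr g u)⁻¹ := rfl

theorem pr_surj {g : ℕ} (v : Pg g) : ∃ w, pr g w = v := QuotientGroup.mk_surjective v

theorem pr_eq_one {g : ℕ} {w : F g} : pr g w = 1 ↔ w ∈ Rz g := QuotientGroup.eq_one_iff w

theorem pr_zeta (g : ℕ) : pr g (zeta g) = 1 :=
  pr_eq_one.2 (Subgroup.subset_normalClosure rfl)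

/-- the group of the pairs `(m, u)` with `(m, u) (n, v) = (m + u n, u v)` -/
@[ext] structure Fx (g : ℕ) where
  /-- the derivative -/
  m : Fm g
  /-- the value -/
  u : Pg g

variable {g : ℕ}

noncomputable instance : Mul (Fx g) := ⟨fun x y => ⟨x.m + sg x.u • y.m, x.u * y.u⟩⟩

noncomputable instance : One (Fx g) := ⟨⟨0, 1⟩⟩

noncomputable instance : Inv (Fx g) := ⟨fun x => ⟨-(sg x.u⁻¹ • x.m), x.u⁻¹⟩⟩

@[simp] theorem Fx.mul_m (x y : Fx g) : (x * y).m = x.m + sg x.u • y.m := rfl
@[simp] theorem Fx.mul_u (x y : Fx g) : (x * y).u = x.u * y.u := rfl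
@[simp] theorem Fx.one_m : (1 : Fx g).m = 0 := rfl
@[simp] theorem Fx.one_u : (1 : Fx g).u = 1 := rfl
@[simp] theorem Fx.inv_m (x : Fx g) : x⁻¹.m = -(sg x.u⁻¹ • x.m) := rfl
@[simp] theorem Fx.inv_u (x : Fx g) : x⁻¹.u = x.u⁻¹ := rfl

noncomputable instance : Group (Fx g) where
  mul_assoc x y z := by
    apply Fx.ext
    · simp only [Fx.mul_m, Fx.mul_u, sg_mul, smul_add, mul_smul]
      rw [add_assoc]
    · simp only [Fx.mul_u, mul_assoc]
  one_mul x := by
    apply Fx.ext
    · simp only [Fx.mul_m, Fx.one_m, Fx.one_u, sg_one, one_smul, zero_add]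
    · simp only [Fx.mul_u, Fx.one_u, one_mul]
  mul_one x := by
    apply Fx.ext
    · simp only [Fx.mul_m, Fx.one_m, smul_zero, add_zero]
    · simp only [Fx.mul_u, Fx.one_u, mul_one]
  inv_mul_cancel x := by
    apply Fx.ext
    · simp only [Fx.mul_m, Fx.inv_m, Fx.inv_u, Fx.one_m, neg_add_cancel]
    · simp only [Fx.mul_u, Fx.inv_u, Fx.one_u, inv_mul_cancel]

/-- the homomorphism `w ↦ (D w, w)` -/
noncomputable def foxHom (g : ℕ) : F g →* Fx g :=
  FreeGroup.lift fun i => ⟨Pi.single i 1, pr g (FreeGroup.of i)⟩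

/-- the Fox derivative -/
noncomputable def D (w : F g) : Fm g := (foxHom g w).m

theorem foxHom_u (w : F g) : (foxHom g w).u = pr g w := by
  induction w using FreeGroup.induction_on with
  | C1 => rw [map_one]; rfl
  | of x => simp [foxHom]
  | inv_of x hx => rw [map_inv, Fx.inv_u, hx]; rfl
  | mul x y hx hy => rw [map_mul, Fx.mul_u, hx, hy]; rfl

theorem D_mul (u v : F g) : D (u * v) = D u + sg (pr g u) • D v := by
  unfold D
  rw [map_mul, Fx.mul_m, foxHom_u]

theorem D_one : D (1 : F g) = 0 := by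
  unfold D
  rw [map_one]
  rfl

theorem D_of (i : Gen g) : D (FreeGroup.of i) = Pi.single i 1 := by
  simp [D, foxHom]

theorem D_inv (u : F g) : D u⁻¹ = -(sg (pr g u)⁻¹ • D u) := by
  unfold D
  rw [map_inv, Fx.inv_m, foxHom_u]

/-- the first boundary -/
noncomputable def dd1 (g : ℕ) : Fm g →ₗ[La g] La g where
  toFun m := ∑ i, m i * (sg (pr g (FreeGroup.of i)) - 1)
  map_add' x y := by
    simp only [Pi.add_apply, add_mul, Finset.sum_add_distrib]
  map_smul' r x := by
    simp only [Pi.smul_apply, smul_eq_mul, mul_assoc, Finset.mul_sum, RingHom.id_apply]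

theorem dd1_apply (m : Fm g) : dd1 g m = ∑ i, m i * (sg (pr g (FreeGroup.of i)) - 1) := rfl

/-- the augmentation -/
noncomputable def ag (G : Type) [Group G] : GA G →ₐ[ℤ] ℤ := MonoidAlgebra.lift ℤ ℤ G 1

theorem ag_sg {G : Type} [Group G] (u : G) : ag G (sg u) = 1 := by
  simp [ag, sg]

/-- induction for additive maps out of the group ring -/
theorem GA_ext {G M : Type} [Group G] [AddCommGroup M] {f f' : GA G →+ M}
    (h : ∀ u, f (sg u) = f' (sg u)) : f = f' := by
  apply MonoidAlgebra.addHom_ext'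
  intro u
  apply AddMonoidHom.ext_int
  exact h u

/-- the ring homomorphism induced by a group homomorphism -/
noncomputable def am {G H : Type} [Group G] [Group H] (α : G →* H) : GA G →+* GA H :=
  (MonoidAlgebra.lift ℤ (GA H) G ((MonoidAlgebra.of ℤ H).comp α)).toRingHom

theorem am_sg {G H : Type} [Group G] [Group H] (α : G →* H) (u : G) : am α (sg u) = sg (α u) := by
  show MonoidAlgebra.lift ℤ (GA H) G ((MonoidAlgebra.of ℤ H).comp α) (MonoidAlgebra.of ℤ G u) = _
  rw [MonoidAlgebra.lift_of]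
  rfl

/-- the action of the group ring on chains of lists -/
noncomputable def aH (G α : Type) [Group G] [MulAction G α] : G →* Module.End ℤ (Ch α) where
  toFun u := aL u
  map_one' := by
    apply Ch.ext_lin
    intro l
    rw [TorE.aL_single]
    simp
  map_mul' u v := LinearMap.ext fun c => TorE.bc_aL_mul u v c

/-- the action of the group ring on chains of lists -/
noncomputable def ac {G α : Type} [Group G] [MulAction G α] : GA G →ₐ[ℤ] Module.End ℤ (Ch α) :=
  MonoidAlgebra.lift ℤ (Module.End ℤ (Ch α)) G (aH G α)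

theorem ac_sg {G α : Type} [Group G] [MulAction G α] (u : G) : ac (α := α) (sg u) = aL u := by
  show MonoidAlgebra.lift ℤ (Module.End ℤ (Ch α)) G (aH G α) (MonoidAlgebra.of ℤ G u) = _
  rw [MonoidAlgebra.lift_of]
  rfl

/-- the automorphism of `Pg g` induced by an element of `Gam g` -/
theorem Gam_Rz_map (φ : Gam g) : (Rz g).map (φ : MulAut (F g)).toMonoidHom = Rz g := by
  unfold Rz
  rw [Subgroup.map_normalClosure _ _ (φ : MulAut (F g)).surjective]
  congr 1
  ext x
  simp only [MulEquiv.toMonoidHom_eq_coe, MonoidHom.coe_coe, Set.image_singleton]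
  have h : (φ : MulAut (F g)) (zeta g) = zeta g := φ.2
  rw [h]

/-- the automorphism of `Pg g` induced by an element of `Gam g` -/
noncomputable def ro (g : ℕ) : Gam g →* MulAut (Pg g) where
  toFun φ := QuotientGroup.congr (Rz g) (Rz g) (φ : MulAut (F g)) (Gam_Rz_map φ)
  map_one' := by
    ext x
    obtain ⟨w, rfl⟩ := pr_surj x
    rfl
  map_mul' φ ψ := by
    ext x
    obtain ⟨w, rfl⟩ := pr_surj x
    rfl

theorem ro_pr (φ : Gam g) (w : F g) : ro g φ (pr g w) = pr g ((φ : MulAut (F g)) w) := rfl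

end TorQ
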