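import Pool.Agent.Lib.MP_05cdf2_gt.Q.QDef

/-! MP_05cdf2_gt, job Q.QFox. Fox calculus and the exactness of the resolution
`0 → La → Fm → La → ℤ → 0`, `r ↦ r • D ζ`, `dd1`, `ag`.

`dd1_D`: by `FreeGroup.induction_on`, with `D_mul`, `D_of`, `D_inv`, `sg_mul`, `dd1` linear:
`dd1 (D u + u D v) = (u - 1) + u (v - 1) = u v - 1`.
`D_Rz`: closure induction on the normal closure (`Subgroup.normalClosure` = closure of the conjugates,
`Subgroup.conjugatesOfSet`; or `Subgroup.normalClosure_le_normal`-like: the set of the `r ∈ Rz` with `D r` a multiple of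
`D ζ` is a normal subgroup containing `ζ`): for `r ∈ Rz`, `pr r = 1`, so `D (r s) = D r + D s`, `D r⁻¹ = - D r`,
`D (u r u⁻¹) = D u + u D r + u r D u⁻¹ = u D r` (`D u⁻¹ = - u⁻¹ D u`).
`D_congr`: `u = r v` with `r = u v⁻¹ ∈ Rz`: `D u = D r + D v`.
`exact1`: let `M = Fm ⧸ span {D ζ}` (as a module over `La`), and `s : La → M` the additive map with
`s (sg v) = class of D w` for a chosen `w` with `pr w = v` (`Quotient.out`; it does not depend on the choice by
`D_congr`). Claim: `s (dd1 m) = class of m`. By additivity (`GA_ext`, `Pi.single`) for `m = sg v • e_i`,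
`dd1 m = sg (v x_i) - sg v`, `v = pr w`: `s (dd1 m) = [D (w x_i)] - [D w] = [v D x_i] = [m]`. So `dd1 m = 0` implies
`m ∈ span {D ζ}`, `Submodule.mem_span_singleton`.
`D_zeta_a`: the coordinate at `a_0` of `D ζ` is `1 - sg (pr (a b a⁻¹))`, `a = ga 0`, `b = gb 0`: `ζ` is the product of
`⁅a_i, b_i⁆` over `List.finRange g = 0 :: ...`; `D (⁅a, b⁆ w) = D ⁅a, b⁆ + ⁅a, b⁆ D w`, the coordinate at `a_0` of the `D` of
a product of commutators with indices `≠ 0` is `0`, and that of `D ⁅a, b⁆` is `1 - a b a⁻¹`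
(`a b a⁻¹ b⁻¹`: `D = e_a + a e_b - a b a⁻¹ e_a - a b a⁻¹ b⁻¹ e_b`).
`inf_order`: `t = a b a⁻¹` has infinite order in `Pg`: `t^n = 1` means `a b^n a⁻¹ ∈ Rz`, so its abelianisation
(`abv`, kills `Rz` since `abv ζ = 0`: `abv_conj`, `map_zeta`) `n e_b` is `0`.
`inj2`: if `r • D ζ = 0` then `r (1 - sg t) = 0`: `r = r sg t`, so the coefficient function of `r` satisfies
`r(v) = r(v t⁻¹)`; hence the (finite) support of `r` is stable under right multiplication by `t`, of infinite order, so it
is empty.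
`exact0`: `dd1` hits `sg v - 1` for all `v` (`dd1_D`), and `r - ag r • 1` is a combination of the `sg v - 1`. -/

set_option autoImplicit false

namespace TorQ
open TorM Tor TorP TorG Finsupp

variable {g : ℕ}

theorem dd1_D (w : F g) : dd1 g (D w) = sg (pr g w) - 1 := by
  induction w using FreeGroup.induction_on with
  | C1 =>
    rw [D_one, map_zero, pr_one, sg_one, sub_self]
  | of i =>
    rw [D_of, dd1_apply, Finset.sum_eq_single i]
    · rw [Pi.single_eq_same, one_mul]
    · intro j _ hj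
      rw [Pi.single_eq_of_ne hj, zero_mul]
    · intro h
      exact absurd (Finset.mem_univ i) h
  | inv_of i h =>
    rw [D_inv, map_neg, map_smul, h, smul_eq_mul, mul_sub, mul_one, ← sg_mul, inv_mul_cancel,
      sg_one, pr_inv, neg_sub]
  | mul x y hx hy =>
    rw [D_mul, map_add, map_smul, hx, hy, smul_eq_mul, mul_sub, mul_one, ← sg_mul, pr_mul]
    abel

/-- the subgroup of the elements with trivial image and derivative a multiple of that of the boundary -/
noncomputable def QFox_N (g : ℕ) : Subgroup (F g) where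
  carrier := {r | pr g r = 1 ∧ ∃ c : La g, D r = c • D (zeta g)}
  one_mem' := ⟨pr_one, 0, by rw [D_one, zero_smul]⟩
  mul_mem' := by
    rintro a b ⟨ha, c, hc⟩ ⟨hb, c', hc'⟩
    refine ⟨by rw [pr_mul, ha, hb, mul_one], c + c', ?_⟩
    rw [D_mul, ha, sg_one, one_smul, hc, hc', add_smul]
  inv_mem' := by
    rintro a ⟨ha, c, hc⟩
    refine ⟨by rw [pr_inv, ha, inv_one], -c, ?_⟩
    rw [D_inv, ha, inv_one, sg_one, one_smul, hc, neg_smul]

instance QFox_normal (g : ℕ) : (QFox_N g).Normal where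
  conj_mem := by
    rintro r ⟨hr, c, hc⟩ u
    refine ⟨by rw [pr_mul, pr_mul, hr, mul_one, pr_inv, mul_inv_cancel], sg (pr g u) * c, ?_⟩
    rw [D_mul, D_mul, pr_mul, hr, mul_one, D_inv, smul_neg, smul_smul, ← sg_mul, mul_inv_cancel,
      sg_one, one_smul, hc, smul_smul]
    abel

theorem D_Rz {r : F g} (hr : r ∈ Rz g) : ∃ c : La g, D r = c • D (zeta g) := by
  have h : Rz g ≤ QFox_N g := by
    refine Subgroup.normalClosure_le_normal ?_
    rintro _ rfl
    exact ⟨pr_zeta g, 1, by rw [one_smul]⟩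
  exact (h hr).2

theorem D_congr {u v : F g} (h : pr g u = pr g v) : ∃ c : La g, D u - D v = c • D (zeta g) := by
  have h1 : pr g (u * v⁻¹) = 1 := by rw [pr_mul, pr_inv, h, mul_inv_cancel]
  obtain ⟨c, hc⟩ := D_Rz (pr_eq_one.1 h1)
  refine ⟨c, ?_⟩
  have h2 : D u = D (u * v⁻¹) + sg (pr g (u * v⁻¹)) • D v := by
    rw [← D_mul, inv_mul_cancel_right]
  rw [h2, h1, sg_one, one_smul, hc, add_sub_cancel_right]

/-- additive maps out of the group ring -/
noncomputable def QFox_lift {G M : Type} [Group G] [AddCommGroup M] (f : G → M) : GA G →+ M :=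
  (Finsupp.liftAddHom fun u => zmultiplesHom M (f u)).comp
    (MonoidAlgebra.coeffAddEquiv (R := ℤ) (M := G)).toAddMonoidHom

theorem QFox_lift_sg {G M : Type} [Group G] [AddCommGroup M] (f : G → M) (u : G) :
    QFox_lift f (sg u) = f u := by
  show (Finsupp.liftAddHom fun u => zmultiplesHom M (f u)) (Finsupp.single u (1 : ℤ)) = f u
  rw [Finsupp.liftAddHom_apply_single, zmultiplesHom_apply, one_smul]

theorem exact1 {m : Fm g} (h : dd1 g m = 0) : ∃ c : La g, m = c • D (zeta g) := by
  classical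
  obtain ⟨S, hS⟩ : ∃ S : Submodule (La g) (Fm g), S = Submodule.span (La g) {D (zeta g)} := ⟨_, rfl⟩
  have hDS : ∀ u v : F g, pr g u = pr g v → S.mkQ (D u) = S.mkQ (D v) := by
    intro u v huv
    obtain ⟨c, hc⟩ := D_congr huv
    rw [← sub_eq_zero, ← map_sub, hc, Submodule.mkQ_apply, Submodule.Quotient.mk_eq_zero, hS]
    exact Submodule.smul_mem _ _ (Submodule.mem_span_singleton_self _)
  obtain ⟨s, hs⟩ : ∃ s : La g →+ (Fm g ⧸ S), ∀ w : F g, s (sg (pr g w)) = S.mkQ (D w) := by
    refine ⟨QFox_lift fun v => S.mkQ (D (Classical.choose (pr_surj v))), fun w => ?_⟩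
    rw [QFox_lift_sg]
    exact hDS _ _ (Classical.choose_spec (pr_surj (pr g w)))
  have hone : ∀ (i : Gen g) (r : La g),
      s (dd1 g (Pi.single i r)) = S.mkQ (Pi.single i r) := by
    intro i r
    have h1 : (s.comp (dd1 g).toAddMonoidHom).comp (AddMonoidHom.single (fun _ => La g) i) =
        (S.mkQ.toAddMonoidHom).comp (AddMonoidHom.single (fun _ => La g) i) := by
      apply GA_ext
      intro v
      obtain ⟨w, rfl⟩ := pr_surj v
      show s (dd1 g (Pi.single i (sg (pr g w)))) = S.mkQ (Pi.single i (sg (pr g w)))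
      have h2 : (Pi.single i (sg (pr g w)) : Fm g) = D (w * FreeGroup.of i) - D w := by
        rw [D_mul, D_of, add_sub_cancel_left]
        funext j
        by_cases hj : j = i
        · subst hj
          rw [Pi.smul_apply, Pi.single_eq_same, Pi.single_eq_same, smul_eq_mul, mul_one]
        · rw [Pi.smul_apply, Pi.single_eq_of_ne hj, Pi.single_eq_of_ne hj, smul_zero]
      rw [h2, map_sub (dd1 g), dd1_D, dd1_D, sub_sub_sub_cancel_right, map_sub, map_sub, hs, hs]
    exact DFunLike.congr_fun h1 r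
  have hall : ∀ m : Fm g, s (dd1 g m) = S.mkQ m := by
    intro m
    have h1 : m = ∑ i, Pi.single i (m i) := (Finset.univ_sum_single m).symm
    rw [h1, map_sum, map_sum, map_sum]
    exact Finset.sum_congr rfl fun i _ => hone i (m i)
  have h3 := hall m
  rw [h, map_zero] at h3
  have h4 : m ∈ S := by
    rw [← Submodule.Quotient.mk_eq_zero, ← Submodule.mkQ_apply]
    exact h3.symm
  rw [hS, Submodule.mem_span_singleton] at h4
  obtain ⟨c, hc⟩ := h4
  exact ⟨c, hc.symm⟩

open scoped commutatorElement in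
theorem QFox_comm (i j : Fin g) : D ⁅ga i, gb i⁆ (Sum.inl j) =
    if i = j then 1 - sg (pr g (ga i * gb i * (ga i)⁻¹)) else 0 := by
  have ha : D (ga i) = Pi.single (Sum.inl i) 1 := D_of _
  have hb : D (gb i) = Pi.single (Sum.inr i) 1 := D_of _
  rw [commutatorElement_def, D_mul, D_mul, D_mul, D_inv, D_inv, ha, hb]
  simp only [Pi.add_apply, Pi.smul_apply, Pi.neg_apply, smul_eq_mul]
  have h1 : (Pi.single (Sum.inr i) 1 : Fm g) (Sum.inl j) = 0 :=
    Pi.single_eq_of_ne (by simp) _
  rw [h1, mul_zero, mul_zero, neg_zero, mul_zero, add_zero, add_zero]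
  by_cases hij : i = j
  · subst hij
    rw [if_pos rfl, Pi.single_eq_same, mul_one, mul_neg, ← sg_mul, ← pr_inv, ← pr_mul, ← sub_eq_add_neg]
  · rw [if_neg hij, Pi.single_eq_of_ne (by simpa using fun h => hij h.symm), mul_zero, neg_zero,
      mul_zero, add_zero]

open scoped commutatorElement in
theorem QFox_list (j : Fin g) (L : List (Fin g)) (hL : ∀ i ∈ L, i ≠ j) :
    D ((L.map fun i => ⁅ga i, gb i⁆).prod) (Sum.inl j) = 0 := by
  induction L with
  | nil =>
    rw [List.map_nil, List.prod_nil, D_one]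
    rfl
  | cons i L ih =>
    rw [List.map_cons, List.prod_cons, D_mul, Pi.add_apply, Pi.smul_apply,
      ih fun i hi => hL i (List.mem_cons_of_mem _ hi), smul_zero, add_zero, QFox_comm,
      if_neg (hL i List.mem_cons_self)]

theorem D_zeta_a [NeZero g] : D (zeta g) (Sum.inl 0) =
    1 - sg (pr g (ga (0 : Fin g) * gb 0 * (ga 0)⁻¹)) := by
  have h1 : ∃ L : List (Fin g), List.finRange g = 0 :: L ∧ ∀ i ∈ L, i ≠ 0 := by
    obtain ⟨n, rfl⟩ : ∃ n, g = n + 1 := ⟨g - 1, by have := NeZero.pos g; omega⟩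
    refine ⟨(List.finRange n).map Fin.succ, ?_, ?_⟩
    · rw [List.finRange_succ]
    · intro i hi
      obtain ⟨k, -, rfl⟩ := List.mem_map.1 hi
      exact Fin.succ_ne_zero k
  obtain ⟨L, hL, hL0⟩ := h1
  rw [zeta_eq, hL, List.map_cons, List.prod_cons, D_mul, Pi.add_apply, Pi.smul_apply,
    QFox_list 0 L hL0, smul_zero, add_zero, QFox_comm, if_pos rfl]

theorem QFox_ab {r : F g} (hr : r ∈ Rz g) : abv r = 0 := by
  have h : Rz g ≤ (ab (g := g)).ker := by
    refine Subgroup.normalClosure_le_normal ?_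
    rintro _ rfl
    show ab (zeta g) = 1
    rw [zeta_eq, map_list_prod]
    apply List.prod_eq_one
    intro x hx
    rw [List.map_map] at hx
    obtain ⟨i, -, rfl⟩ := List.mem_map.1 hx
    exact congrArg Multiplicative.ofAdd (abv_comm (ga i) (gb i))
  have h1 : ab r = 1 := h hr
  unfold abv
  rw [h1]
  rfl

theorem inf_order [NeZero g] (n : ℕ) (hn : 0 < n) : pr g (ga (0 : Fin g) * gb 0 * (ga 0)⁻¹) ^ n ≠ 1 := by
  intro h
  have h1 : ga (0 : Fin g) * gb 0 ^ n * (ga 0)⁻¹ ∈ Rz g := by
    rw [← pr_eq_one, ← conj_pow]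
    exact h
  have h2 := QFox_ab h1
  rw [abv_conj] at h2
  have h3 : ∀ k : ℕ, abv (gb (0 : Fin g) ^ k) (Sum.inr 0) = k := by
    intro k
    induction k with
    | zero =>
      rw [pow_zero, abv_one]
      rfl
    | succ k ih =>
      rw [pow_succ, abv_mul, Pi.add_apply, ih]
      unfold gb
      rw [abv_of, Pi.single_eq_same]
      push_cast
      rfl
  have h4 := h3 n
  rw [h2] at h4
  have h5 : (0 : ℤ) = n := h4
  omega

theorem inj2 [NeZero g] {r : La g} (h : r • D (zeta g) = 0) : r = 0 := by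
  have h1 := congrFun h (Sum.inl 0)
  rw [Pi.smul_apply, D_zeta_a, smul_eq_mul, Pi.zero_apply, mul_sub, mul_one, sub_eq_zero] at h1
  obtain ⟨t, ht⟩ : ∃ t, t = pr g (ga (0 : Fin g) * gb 0 * (ga 0)⁻¹) := ⟨_, rfl⟩
  have hord : ∀ n : ℕ, 0 < n → t ^ n ≠ 1 := by
    intro n hn
    rw [ht]
    exact inf_order n hn
  rw [← ht] at h1
  by_contra hr
  have hne : r.coeff.support.Nonempty := by
    rw [Finset.nonempty_iff_ne_empty]
    intro h2
    apply hr
    apply MonoidAlgebra.coeff_injective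
    rw [Finsupp.support_eq_empty.1 h2]
    rfl
  obtain ⟨v0, hv0⟩ := hne
  have hsupp : r.coeff.support = r.coeff.support.map (mulRightEmbedding t) := by
    have h2 := MonoidAlgebra.support_coeff_mul_single r (1 : ℤ) (fun y => by rw [mul_one]) t
    have h3 : r * MonoidAlgebra.single t (1 : ℤ) = r := h1.symm
    rw [h3] at h2
    exact h2
  have hstep : ∀ v ∈ r.coeff.support, v * t ∈ r.coeff.support := by
    intro v hv
    rw [hsupp]
    exact Finset.mem_map.2 ⟨v, hv, rfl⟩
  have hall : ∀ n : ℕ, v0 * t ^ n ∈ r.coeff.support := by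
    intro n
    induction n with
    | zero =>
      rw [pow_zero, mul_one]
      exact hv0
    | succ n ih =>
      rw [pow_succ, ← mul_assoc]
      exact hstep _ ih
  have hinj : Function.Injective fun n : ℕ => v0 * t ^ n := by
    intro a b hab
    have h2 : t ^ a = t ^ b := mul_left_cancel hab
    rcases lt_trichotomy a b with h3 | h3 | h3
    · exfalso
      refine hord (b - a) (by omega) ?_
      have h4 : t ^ b = t ^ a * t ^ (b - a) := by rw [← pow_add]; congr 1; omega
      rw [h4] at h2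
      exact (mul_eq_left.1 h2.symm)
    · exact h3
    · exfalso
      refine hord (a - b) (by omega) ?_
      have h4 : t ^ a = t ^ b * t ^ (a - b) := by rw [← pow_add]; congr 1; omega
      rw [h4] at h2
      exact (mul_eq_left.1 h2)
  exact (Set.infinite_of_injective_forall_mem hinj hall) r.coeff.support.finite_toSet

theorem exact0 {r : La g} (h : ag (Pg g) r = 0) : ∃ m : Fm g, dd1 g m = r := by
  obtain ⟨S, hS⟩ : ∃ S : Submodule (La g) (La g), S = LinearMap.range (dd1 g) := ⟨_, rfl⟩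
  have h1 : (S.mkQ.toAddMonoidHom : La g →+ (La g ⧸ S)) =
      (S.mkQ.toAddMonoidHom).comp
        ((zmultiplesHom (La g) 1).comp (ag (Pg g)).toRingHom.toAddMonoidHom) := by
    apply GA_ext
    intro v
    obtain ⟨w, rfl⟩ := pr_surj v
    show S.mkQ (sg (pr g w)) = S.mkQ ((ag (Pg g) (sg (pr g w))) • (1 : La g))
    rw [ag_sg, one_smul, ← sub_eq_zero, ← map_sub, Submodule.mkQ_apply,
      Submodule.Quotient.mk_eq_zero, hS]
    exact ⟨D w, dd1_D w⟩
  have h2 : S.mkQ r = S.mkQ ((ag (Pg g) r) • (1 : La g)) := DFunLike.congr_fun h1 r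
  rw [h, zero_smul, map_zero, Submodule.mkQ_apply, Submodule.Quotient.mk_eq_zero, hS] at h2
  exact h2

end TorQ
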