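import Pool.Agent.Lib.MP_05cdf2_gt.Q.QFox

/-! MP_05cdf2_gt, job Q.QGfp. The surface group is of type FP infinity.

`GFP G = FPI (GA G) (PM G PUnit)` (B/PM, B/FPDef). Let `I` be the kernel of the map `ε : La → PM (Pg g) PUnit`,
`r ↦ r • single () 1` (a submodule of `La`); `ε r = ag r • single () 1`, so `I` is the kernel of the augmentation.
(1) `0 → La → Fm → I → 0` with `r ↦ r • D ζ` (injective by `inj2`) and `dd1` (surjective on `I` by `exact0`, kernel by
`exact1`; `dd1 (D ζ) = 0` by `dd1_D` and `pr_zeta`): `FPI.quot` (`FPI La La` from `FP.self`/`FP.free`, `FPI La Fm`: `Fm` is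
`Gen g → La`, isomorphic to `Fin (2 g) → La`, `FP.iso`, `FP.free`) gives `FPI La I`.
(2) `0 → I → La → PM PUnit → 0`: `FPI.quot` gives `FPI La (PM PUnit)`. -/

set_option autoImplicit false

namespace TorQ
open TorM Tor TorP TorG Finsupp

variable {g : ℕ}

/-- the generator of the trivial module -/
noncomputable def QGfp_p1 (g : ℕ) : PM (Pg g) PUnit.{1} :=
  (PM.eq (Pg g) PUnit.{1}).symm (single PUnit.unit 1)

/-- the augmentation as a map of modules -/
noncomputable def QGfp_eps (g : ℕ) : La g →ₗ[La g] PM (Pg g) PUnit.{1} :=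
  LinearMap.toSpanSingleton (La g) (PM (Pg g) PUnit.{1}) (QGfp_p1 g)

theorem QGfp_eps_apply (r : La g) : QGfp_eps g r = r • QGfp_p1 g := rfl

theorem QGfp_sg (u : Pg g) : sg u • QGfp_p1 g = QGfp_p1 g := by
  apply (PM.eq (Pg g) PUnit.{1}).injective
  unfold sg
  rw [PM.eq_of_smul]
  have h : PM.eq (Pg g) PUnit.{1} (QGfp_p1 g) = single PUnit.unit 1 := rfl
  rw [h, mapDomain_single]

theorem QGfp_eps_ag (r : La g) : QGfp_eps g r = ag (Pg g) r • QGfp_p1 g := by
  have h : (QGfp_eps g).toAddMonoidHom =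
      AddMonoidHom.mk' (fun r => ag (Pg g) r • QGfp_p1 g) (fun r t => by
        rw [map_add, add_smul]) := by
    apply GA_ext
    intro u
    show sg u • QGfp_p1 g = ag (Pg g) (sg u) • QGfp_p1 g
    rw [QGfp_sg, ag_sg, one_smul]
  exact DFunLike.congr_fun h r

theorem QGfp_eps_zero {r : La g} : QGfp_eps g r = 0 ↔ ag (Pg g) r = 0 := by
  rw [QGfp_eps_ag]
  constructor
  · intro h
    have h1 := congrArg (PM.eq (Pg g) PUnit.{1}) h
    rw [map_zsmul, map_zero] at h1
    have h2 : PM.eq (Pg g) PUnit.{1} (QGfp_p1 g) = single PUnit.unit 1 := rfl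
    rw [h2] at h1
    have h3 := DFunLike.congr_fun h1 PUnit.unit
    simpa using h3
  · intro h
    rw [h, zero_smul]

theorem QGfp_eps_surj : Function.Surjective (QGfp_eps g) := by
  intro x
  refine ⟨((PM.eq (Pg g) PUnit.{1} x PUnit.unit : ℤ) : La g), ?_⟩
  rw [QGfp_eps_ag, map_intCast, Int.cast_id]
  apply (PM.eq (Pg g) PUnit.{1}).injective
  rw [map_zsmul]
  have h2 : PM.eq (Pg g) PUnit.{1} (QGfp_p1 g) = single PUnit.unit 1 := rfl
  rw [h2]
  refine Finsupp.ext fun u => ?_
  cases u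
  rw [Finsupp.smul_apply, Finsupp.single_eq_same, smul_eq_mul, mul_one]

theorem QGfp_dd1_mem (m : Fm g) : dd1 g m ∈ LinearMap.ker (QGfp_eps g) := by
  rw [LinearMap.mem_ker, QGfp_eps_zero, dd1_apply, map_sum]
  refine Finset.sum_eq_zero fun i _ => ?_
  rw [map_mul, map_sub, ag_sg, map_one, sub_self, mul_zero]

theorem QGfp_Fm : FPI (La g) (Fm g) := by
  intro n
  exact FP.iso (FP.free n (Fintype.card (Gen g)))
    (LinearEquiv.funCongrLeft (La g) (La g) (Fintype.equivFin (Gen g)))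

theorem gfp_Pg (g : ℕ) [NeZero g] : GFP (Pg g) := by
  have hI : FPI (La g) (LinearMap.ker (QGfp_eps g)) := by
    refine FPI.quot (LinearMap.toSpanSingleton (La g) (Fm g) (D (zeta g)))
      (LinearMap.codRestrict (LinearMap.ker (QGfp_eps g)) (dd1 g) QGfp_dd1_mem) ?_ ?_ ?_
      (fun n => FP.self n) QGfp_Fm
    · intro a b hab
      have h1 : a • D (zeta g) = b • D (zeta g) := hab
      have h2 : (a - b) • D (zeta g) = 0 := by rw [sub_smul, h1, sub_self]
      exact sub_eq_zero.1 (inj2 h2)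
    · rintro ⟨r, hr⟩
      rw [LinearMap.mem_ker, QGfp_eps_zero] at hr
      obtain ⟨m, hm⟩ := exact0 hr
      exact ⟨m, Subtype.ext hm⟩
    · intro b
      constructor
      · intro h
        have h1 : dd1 g b = 0 := congrArg Subtype.val h
        obtain ⟨c, hc⟩ := exact1 h1
        exact ⟨c, hc.symm⟩
      · rintro ⟨a, rfl⟩
        apply Subtype.ext
        show dd1 g (a • D (zeta g)) = 0
        rw [map_smul, dd1_D, pr_zeta, sg_one, sub_self, smul_zero]
  refine FPI.quot (LinearMap.ker (QGfp_eps g)).subtype (QGfp_eps g)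
    (Submodule.injective_subtype _) QGfp_eps_surj ?_ hI (fun n => FP.self n)
  intro b
  constructor
  · intro h
    exact ⟨⟨b, h⟩, rfl⟩
  · rintro ⟨a, rfl⟩
    exact a.2

end TorQ
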