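import Pool.Agent.Lib.MP_05cdf2_gt.Q.QDef

/-! MP_05cdf2_gt, job Q.QHom. Two semilinear chain maps of the complex of lists of a group are homotopic.

Let `α : G →* G`, `F₁ F₂` additive maps of `Ch G` (`G` acts on itself by left multiplication), compatible with `bd`,
preserving the lengths of the lists, `F (u c) = α(u) F c`, equal on the empty list. Let `E = F₁ - F₂`.
Homotopy: `H [] = 0`, `H (u :: l) = α(u) • cone 1 (E l₁ - H' l₁)` where `l₁ = u⁻¹ (u :: l)` (so `l₁` begins with `1`) and
`H' l₁ = ∑ over bdL l₁ of H` (lists of smaller length). Define linear maps `Hn q : Ch G →ₗ[ℤ] Ch G` by recursion on `q`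
(`Hn q` is correct on lists of length `≤ q`):
`Hn 0 = 0`, `Hn (q + 1) = linearCombination of (fun l => if l.length ≤ q then Hn q (single l 1) else`
`match l with | [] => 0 | u :: _ => aL (α u) (cone 1 (E (aL u⁻¹ (single l 1)) - Hn q (bd (aL u⁻¹ (single l 1))))))`.
For lists `l` of length `q + 1` put `X = E l₁ - Hn q (bd l₁)`. By induction `bd (Hn q c) + Hn q (bd c) = E c` for `c`
supported on lists of length `≤ q`, so `bd X = E (bd l₁) - bd (Hn q (bd l₁)) = Hn q (bd (bd l₁)) = 0`. Hence
`bd (cone 1 X) = X` (`bd_cone`) and `bd (Hn (q+1) l) = aL (α u) X = E l - Hn q (bd l)` as `E`, `Hn q` are semilinear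
(`Hn (u c) = α(u) Hn c`: for `v • l` the first entry is `v u` and `(v • l)₁ = l₁`; `aL (α (v u)) = aL (α v) ∘ aL (α u)`).
`Hn q` maps chains supported on lists of length `r` to chains supported on lists of length `r + 1`.
If `z ∈ ZL ⊤ G q`: `z` is supported on lists of length `q`, `bd z ∈ KL`; `E z = bd (Hn q z) + Hn q (bd z)`,
`Hn q (bd z) ∈ KL` (`TorE.KL_map` with `n' = α n`), so `E z ∈ BL` (`TorE.mem_BL`). -/

set_option autoImplicit false

namespace TorQ
open Tor Finsupp TorE

/-- semilinear chain maps, normalised on the empty list -/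
structure SCh {G : Type} [Group G] (α : G →* G) (f : Ch G →ₗ[ℤ] Ch G) : Prop where
  /-- semilinear -/
  sl : ∀ (u : G) (c : Ch G), f (aL u c) = aL (α u) (f c)
  /-- chain map -/
  ch : ∀ c : Ch G, bd (f c) = f (bd c)
  /-- degrees -/
  len : ∀ (q : ℕ) (c : Ch G), c ∈ Sup (Len Set.univ q) → f c ∈ Sup (Len Set.univ q)
  /-- normalisation -/
  nil : f (single [] 1) = single [] 1

private structure QHom_E {G : Type} [Group G] (α : G →* G) (E : Ch G →ₗ[ℤ] Ch G) : Prop where
  sl : ∀ (u : G) (c : Ch G), E (aL u c) = aL (α u) (E c)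
  ch : ∀ c : Ch G, bd (E c) = E (bd c)
  len : ∀ (q : ℕ) (c : Ch G), c ∈ Sup (Len Set.univ q) → E c ∈ Sup (Len Set.univ q)
  nil : E (single [] 1) = 0

/-- the homotopy on long lists -/
noncomputable def QHom_hd {G : Type} [Group G] (α : G →* G) (E H : Ch G →ₗ[ℤ] Ch G) :
    List G → Ch G
  | [] => 0
  | u :: t => aL (α u) (cone 1 (E (aL u⁻¹ (single (u :: t) 1)) -
      H (bd (aL u⁻¹ (single (u :: t) 1)))))

/-- the homotopy -/
noncomputable def QHom_H {G : Type} [Group G] (α : G →* G) (E : Ch G →ₗ[ℤ] Ch G) :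
    ℕ → (Ch G →ₗ[ℤ] Ch G)
  | 0 => 0
  | q + 1 => Finsupp.linearCombination ℤ (fun l =>
      if l.length ≤ q then QHom_H α E q (single l 1) else QHom_hd α E (QHom_H α E q) l)

private theorem QHom_lo {G : Type} [Group G] (α : G →* G) (E : Ch G →ₗ[ℤ] Ch G) (q : ℕ)
    (l : List G) (h : l.length ≤ q) :
    QHom_H α E (q + 1) (single l 1) = QHom_H α E q (single l 1) := by
  rw [QHom_H, Finsupp.linearCombination_single, one_smul, if_pos h]

private theorem QHom_hi {G : Type} [Group G] (α : G →* G) (E : Ch G →ₗ[ℤ] Ch G) (q : ℕ)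
    (u : G) (t : List G) (h : q < (u :: t).length) :
    QHom_H α E (q + 1) (single (u :: t) 1) =
      aL (α u) (cone 1 (E (aL u⁻¹ (single (u :: t) 1)) -
        QHom_H α E q (bd (aL u⁻¹ (single (u :: t) 1))))) := by
  rw [QHom_H, Finsupp.linearCombination_single, one_smul, if_neg (by omega), QHom_hd]

private theorem QHom_lo2 {G : Type} [Group G] (α : G →* G) (E : Ch G →ₗ[ℤ] Ch G) (q : ℕ)
    (c : Ch G) (h : c ∈ Sup {l : List G | l.length ≤ q}) :
    QHom_H α E (q + 1) c = QHom_H α E q c := by
  have h1 := map_Sup (QHom_H α E (q + 1) - QHom_H α E q) ⊥ (S := {l : List G | l.length ≤ q})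
    (by
      intro l hl
      rw [LinearMap.sub_apply, QHom_lo α E q l hl, sub_self]
      exact Submodule.zero_mem _) h
  rw [Submodule.mem_bot, LinearMap.sub_apply, sub_eq_zero] at h1
  exact h1

private theorem QHom_sl {G : Type} [Group G] (α : G →* G) (E : Ch G →ₗ[ℤ] Ch G) (q : ℕ) (v : G) (c : Ch G) :
    QHom_H α E q (aL v c) = aL (α v) (QHom_H α E q c) := by
  induction q generalizing c with
  | zero => rw [QHom_H, LinearMap.zero_apply, LinearMap.zero_apply, map_zero]
  | succ q ih =>
    have key : QHom_H α E (q + 1) ∘ₗ aL v = aL (α v) ∘ₗ QHom_H α E (q + 1) := by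
      apply Ch.ext_lin
      intro l
      rw [LinearMap.comp_apply, LinearMap.comp_apply]
      by_cases hl : l.length ≤ q
      · rw [aL_single, QHom_lo α E q _ (by rw [List.length_map]; exact hl), ← aL_single, ih,
          QHom_lo α E q l hl]
      · cases l with
        | nil => exact absurd (Nat.zero_le q) hl
        | cons u t =>
          have hl' : q < (u :: t).length := by omega
          have e0 : aL v (single (u :: t) 1 : Ch G) =
              single ((v * u) :: t.map (v • ·)) 1 := by
            rw [aL_single, List.map_cons, smul_eq_mul]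
          have hl2 : q < ((v * u) :: t.map (v • ·)).length := by
            rw [List.length_cons, List.length_map]
            rw [List.length_cons] at hl'
            exact hl'
          have e1 : aL (v * u)⁻¹ (single ((v * u) :: t.map (v • ·)) 1 : Ch G) =
              aL u⁻¹ (single (u :: t) 1) := by
            rw [← e0, ← bc_aL_mul]
            congr 2
            group
          rw [e0, QHom_hi α E q _ _ hl2, QHom_hi α E q u t hl', e1, map_mul, bc_aL_mul]
    exact LinearMap.congr_fun key c

private theorem QHom_len {G : Type} [Group G] {α : G →* G} {E : Ch G →ₗ[ℤ] Ch G}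
    (hE : QHom_E α E) (q : ℕ) (r : ℕ) (c : Ch G) (hc : c ∈ Sup (Len Set.univ r)) :
    QHom_H α E q c ∈ Sup (Len Set.univ (r + 1)) := by
  induction q generalizing c r with
  | zero => rw [QHom_H, LinearMap.zero_apply]; exact Submodule.zero_mem _
  | succ q ih =>
    refine map_Sup (QHom_H α E (q + 1)) _ ?_ hc
    rintro l ⟨-, hl⟩
    by_cases hlq : l.length ≤ q
    · rw [QHom_lo α E q l hlq]
      exact ih r _ (single_mem_Sup (S := Len Set.univ r) ⟨trivial, hl⟩ 1)
    · cases l with
      | nil => exact absurd (Nat.zero_le q) hlq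
      | cons u t =>
        rw [QHom_hi α E q u t (by omega)]
        have hr : r = t.length + 1 := by rw [← hl, List.length_cons]
        subst hr
        refine Sup_aL _ ?_
        refine cone_mem_Sup (S := Len Set.univ (t.length + 1)) 1 ?_ ?_
        · rintro l' ⟨-, h'⟩
          exact ⟨trivial, by rw [List.length_cons, h']⟩
        · have h1 : aL u⁻¹ (single (u :: t) 1 : Ch G) ∈ Sup (Len Set.univ (t.length + 1)) :=
            Sup_aL _ (single_mem_Sup (S := Len Set.univ (t.length + 1)) ⟨trivial, hl⟩ 1)
          exact Submodule.sub_mem _ (hE.len _ _ h1) (ih _ _ (Sup_bd h1))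

private theorem QHom_bdle {G : Type} (q : ℕ) (l : List G) (h : l.length ≤ q + 1) :
    bd (single l 1 : Ch G) ∈ Sup {l : List G | l.length ≤ q} := by
  rw [bd_single, one_smul, Finsupp.mem_supported]
  intro l' hl'
  have h1 := (bdL_support l l' hl').2
  change l'.length ≤ q
  omega

private theorem QHom_htp {G : Type} [Group G] {α : G →* G} {E : Ch G →ₗ[ℤ] Ch G}
    (hE : QHom_E α E) (q : ℕ) (c : Ch G) (hc : c ∈ Sup {l : List G | l.length ≤ q}) :
    bd (QHom_H α E q c) + QHom_H α E q (bd c) = E c := by
  induction q generalizing c with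
  | zero =>
    have h1 := map_Sup (bd ∘ₗ QHom_H α E 0 + QHom_H α E 0 ∘ₗ bd - E) ⊥
      (S := {l : List G | l.length ≤ 0}) (by
        intro l hl
        have hl0 : l = [] := List.length_eq_zero_iff.1 (Nat.le_zero.1 hl)
        subst hl0
        rw [LinearMap.sub_apply, LinearMap.add_apply, LinearMap.comp_apply, LinearMap.comp_apply,
          hE.nil, QHom_H, LinearMap.zero_apply, LinearMap.zero_apply, map_zero, add_zero, sub_zero]
        exact Submodule.zero_mem _) hc
    rw [Submodule.mem_bot, LinearMap.sub_apply, sub_eq_zero] at h1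
    exact h1
  | succ q ih =>
    have h1 := map_Sup (bd ∘ₗ QHom_H α E (q + 1) + QHom_H α E (q + 1) ∘ₗ bd - E) ⊥
      (S := {l : List G | l.length ≤ q + 1}) (by
        intro l hl
        rw [Submodule.mem_bot, LinearMap.sub_apply, sub_eq_zero, LinearMap.add_apply,
          LinearMap.comp_apply, LinearMap.comp_apply, QHom_lo2 α E q _ (QHom_bdle q l hl)]
        by_cases hlq : l.length ≤ q
        · rw [QHom_lo α E q l hlq]
          exact ih _ (single_mem_Sup (S := {l : List G | l.length ≤ q}) hlq 1)
        · cases l with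
          | nil => exact absurd (Nat.zero_le q) hlq
          | cons u t =>
            rw [QHom_hi α E q u t (by omega)]
            have e0 : aL u (aL u⁻¹ (single (u :: t) 1 : Ch G)) = single (u :: t) 1 := by
              rw [← bc_aL_mul, mul_inv_cancel, aL_single]
              congr 1
              rw [show (fun x : G => (1 : G) • x) = id from funext fun x => one_smul G x,
                List.map_id]
            have e1 : bd (aL u⁻¹ (single (u :: t) 1 : Ch G)) ∈
                Sup {l : List G | l.length ≤ q} := by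
              rw [aL_single]
              exact QHom_bdle q _ (by rw [List.length_map]; exact hl)
            have e2 := ih _ e1
            rw [bd_bd, map_zero, add_zero] at e2
            have e3 : bd (E (aL u⁻¹ (single (u :: t) 1)) -
                QHom_H α E q (bd (aL u⁻¹ (single (u :: t) 1)))) = 0 := by
              rw [map_sub, hE.ch, e2, sub_self]
            rw [bc_bd_aL, bd_cone, e3, map_zero, sub_zero, map_sub, ← hE.sl, e0,
              ← QHom_sl α E, ← bc_bd_aL, e0, sub_add_cancel]) hc
    rw [Submodule.mem_bot, LinearMap.sub_apply, sub_eq_zero] at h1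
    exact h1

theorem homot {G : Type} [Group G] {α : G →* G} {f f' : Ch G →ₗ[ℤ] Ch G} (hf : SCh α f)
    (hf' : SCh α f') (q : ℕ) (z : Ch G) (hz : z ∈ ZL (⊤ : Subgroup G) G q) :
    f z - f' z ∈ BL (⊤ : Subgroup G) G q := by
  have hE : QHom_E α (f - f') := by
    refine ⟨?_, ?_, ?_, ?_⟩
    · intro u c
      rw [LinearMap.sub_apply, LinearMap.sub_apply, hf.sl, hf'.sl, map_sub]
    · intro c
      rw [LinearMap.sub_apply, LinearMap.sub_apply, map_sub, hf.ch, hf'.ch]
    · intro q c hc
      rw [LinearMap.sub_apply]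
      exact Submodule.sub_mem _ (hf.len q c hc) (hf'.len q c hc)
    · rw [LinearMap.sub_apply, hf.nil, hf'.nil, sub_self]
  rw [mem_ZL] at hz
  rw [mem_BL]
  refine ⟨QHom_H α (f - f') q z, QHom_len hE q q z hz.1, ?_⟩
  have hz2 : z ∈ Sup {l : List G | l.length ≤ q} :=
    Sup_mono (S := Len Set.univ q) (fun l hl => le_of_eq hl.2) hz.1
  have h := QHom_htp hE q z hz2
  rw [LinearMap.sub_apply] at h
  rw [← h, add_sub_cancel_left]
  exact KL_map (N' := (⊤ : Subgroup G)) (QHom_H α (f - f') q)
    (fun n _ x => ⟨α n, Subgroup.mem_top _, QHom_sl α (f - f') q n x⟩) hz.2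

/-- the map induced by `α` is a semilinear chain map (`TorE.mp_bd`) -/
theorem sch_mp {G : Type} [Group G] (α : G →* G) : SCh α (mp α : Ch G →ₗ[ℤ] Ch G) := by
  have hu : Eqv (⊤ : Subgroup G) (⊤ : Subgroup G) (α : G → G) (α : G → G) :=
    ⟨fun _ _ => trivial, fun n _ a => map_mul α n a⟩
  refine ⟨?_, ?_, ?_, ?_⟩
  · intro u c
    exact ECvB_mp_aL hu (Subgroup.mem_top u) c
  · intro c
    exact mp_bd α c
  · intro q c hc
    exact ECvB_mp_Sup α hc
  · rw [ECvB_mp_single, List.map_nil]

theorem sch_id {G : Type} [Group G] : SCh (MonoidHom.id G) (LinearMap.id : Ch G →ₗ[ℤ] Ch G) := by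
  refine ⟨?_, ?_, ?_, ?_⟩
  · intro u c
    rfl
  · intro c
    rfl
  · intro q c hc
    exact hc
  · rfl

end TorQ
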