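import Pool.Agent.Lib.MP_05cdf2_gt.Q.QFox
import Pool.Agent.Lib.MP_05cdf2_gt.Q.QHom

/-! MP_05cdf2_gt, job Q.QMap. The semilinear chain map `Fq φ` through the small resolution.

Fix `φ : Gam g`, `α = ro g φ : Pg g →* Pg g`.
* `Ph1 φ : Fm → Fm`, `∑ m_i e_i ↦ ∑ α(m_i) • D (φ x_i)`: additive, `Ph1 (r • m) = am α r • Ph1 m`, `Ph1 (D w) = D (φ w)`
 (both sides are `α`-derivations in `w`: `FreeGroup.induction_on`), `dd1 (Ph1 m) = am α (dd1 m)`
 (for `m = e_i`: `dd1 (D (φ x_i)) = sg (α x_i) - 1`), and `Ph1 (D ζ) = D ζ` as `φ ζ = ζ`.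
* `f1 : Fm → Ch (Pg g)`, `f1 m = ∑ ac (m_i) [1, x_i]`; `bd (f1 m) = ac (dd1 m) [1]`
 (`bd [1, x] = [x] - [1]`, `ac (sg x) [1] = [x]`); `f1 (r • m) = ac r (f1 m)`.
* `f2 : La → Ch (Pg g)`, `f2 r = ac r (cone 1 (f1 (D ζ)))`; `bd (f2 r) = f1 (r • D ζ)`: `bd (cone 1 c) = c - cone 1 (bd c)`
 and `bd (f1 (D ζ)) = ac (dd1 (D ζ)) [1] = 0`.
* `hh2 u v = sg u • D (w)`, `w` a chosen representative of `u⁻¹ v`; `dd1 (hh2 u v) = sg v - sg u`;
 `hh2 (x u) (x v) = sg x • hh2 u v`.
* `ta u v t`: the unique element of `La` with `ta u v t • D ζ = hh2 v t - hh2 u t + hh2 u v` (`exact1`, `inj2`);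
 `ta (x u) (x v) (x t) = sg x * ta u v t`; for four elements
 `ta v t s - ta u t s + ta u v s - ta u v t = 0` (apply `• D ζ`, `inj2`).
* `Fq φ` on lists: `[] ↦ []`, `[u] ↦ [α u]`, `[u, v] ↦ f1 (Ph1 (hh2 u v))`, `[u, v, t] ↦ f2 (am α (ta u v t))`, longer
 lists to `0`. It is a chain map: lists of length 1, 2: clear; length 3:
 `bd (f2 (am α c)) = f1 (am α c • D ζ) = f1 (Ph1 (c • D ζ))` with `c = ta u v t`, and
 `Fq (bd [u, v, t]) = f1 (Ph1 (hh2 v t - hh2 u t + hh2 u v))`; length 4: `f2 (am α (...)) = 0` by the relation of `ta`;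
 length `≥ 5`: `0 = 0`. Semilinear: `f1 (am α (sg x) • m) = ac (sg (α x)) (f1 m)`, etc. -/

set_option autoImplicit false

namespace TorQ
open TorM Tor TorP TorG Finsupp TorE

variable {g : ℕ}

/-- the list `[1, x_i]` -/
noncomputable def e12 (g : ℕ) (i : Gen g) : Ch (Pg g) := single [1, pr g (FreeGroup.of i)] 1

/-- `f1` -/
noncomputable def f1 (g : ℕ) : Fm g →+ Ch (Pg g) where
  toFun m := ∑ i, ac (m i) (e12 g i)
  map_zero' := by simp
  map_add' x y := by
    simp only [Pi.add_apply, map_add, LinearMap.add_apply, Finset.sum_add_distrib]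

/-- `f2` -/
noncomputable def f2 (g : ℕ) : La g →+ Ch (Pg g) where
  toFun r := ac r (cone (1 : Pg g) (f1 g (D (zeta g))))
  map_zero' := by simp
  map_add' x y := by simp

/-- `Ph1` -/
noncomputable def Ph1 (φ : Gam g) : Fm g →+ Fm g where
  toFun m := ∑ i, am (ro g φ).toMonoidHom (m i) • D ((φ : MulAut (F g)) (FreeGroup.of i))
  map_zero' := by simp
  map_add' x y := by
    simp only [Pi.add_apply, map_add, add_smul, Finset.sum_add_distrib]

/-- `hh2` -/
noncomputable def hh2 (u v : Pg g) : Fm g := sg u • D (Quotient.out (u⁻¹ * v) : F g)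

private theorem QMap_out (x : Pg g) : pr g (Quotient.out x : F g) = x := QuotientGroup.out_eq' x

theorem dd1_hh2 (u v : Pg g) : dd1 g (hh2 u v) = sg v - sg u := by
  unfold hh2
  rw [map_smul, dd1_D, QMap_out, smul_eq_mul, mul_sub, mul_one, ← sg_mul, mul_inv_cancel_left]

theorem ex_ta (u v t : Pg g) : ∃ c : La g, hh2 v t - hh2 u t + hh2 u v = c • D (zeta g) := by
  apply exact1
  rw [map_add, map_sub, dd1_hh2, dd1_hh2, dd1_hh2]
  abel

/-- `ta` -/
noncomputable def ta (u v t : Pg g) : La g := (ex_ta u v t).choose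

theorem ta_spec (u v t : Pg g) : hh2 v t - hh2 u t + hh2 u v = ta u v t • D (zeta g) :=
  (ex_ta u v t).choose_spec

/-- `Fq φ` on lists -/
noncomputable def FqL (φ : Gam g) : List (Pg g) → Ch (Pg g)
  | [] => single [] 1
  | [u] => single [ro g φ u] 1
  | [u, v] => f1 g (Ph1 φ (hh2 u v))
  | [u, v, t] => f2 g (am (ro g φ).toMonoidHom (ta u v t))
  | _ => 0

/-- `Fq φ` -/
noncomputable def Fq (φ : Gam g) : Ch (Pg g) →ₗ[ℤ] Ch (Pg g) := Finsupp.linearCombination ℤ (FqL φ)

theorem f1_smul (r : La g) (m : Fm g) : f1 g (r • m) = ac r (f1 g m) := by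
  show ∑ i, ac ((r • m) i) (e12 g i) = ac r (∑ i, ac (m i) (e12 g i))
  rw [map_sum]
  refine Finset.sum_congr rfl fun i _ => ?_
  rw [Pi.smul_apply, smul_eq_mul, map_mul, Module.End.mul_apply]

theorem Ph1_smul (φ : Gam g) (r : La g) (m : Fm g) :
    Ph1 φ (r • m) = am (ro g φ).toMonoidHom r • Ph1 φ m := by
  show ∑ i, am (ro g φ).toMonoidHom ((r • m) i) • D ((φ : MulAut (F g)) (FreeGroup.of i)) =
    am (ro g φ).toMonoidHom r • ∑ i, am (ro g φ).toMonoidHom (m i) • D ((φ : MulAut (F g)) (FreeGroup.of i))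
  rw [Finset.smul_sum]
  refine Finset.sum_congr rfl fun i _ => ?_
  rw [Pi.smul_apply, smul_eq_mul, map_mul, mul_smul]

theorem Ph1_D (φ : Gam g) (w : F g) : Ph1 φ (D w) = D ((φ : MulAut (F g)) w) := by
  induction w using FreeGroup.induction_on with
  | C1 => rw [map_one, D_one, map_zero]
  | of i =>
    rw [D_of]
    show ∑ j, am (ro g φ).toMonoidHom ((Pi.single i (1 : La g) : Fm g) j) •
      D ((φ : MulAut (F g)) (FreeGroup.of j)) = _
    rw [Finset.sum_eq_single i]
    · rw [Pi.single_eq_same, map_one, one_smul]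
    · intro j _ hj
      rw [Pi.single_eq_of_ne hj, map_zero, zero_smul]
    · intro h
      exact absurd (Finset.mem_univ i) h
  | inv_of i hi =>
    rw [D_inv, map_neg, Ph1_smul, hi, am_sg, map_inv, map_inv, D_inv]
    rfl
  | mul u v hu hv =>
    rw [D_mul, map_add, Ph1_smul, hu, hv, map_mul, D_mul, am_sg]
    rfl

theorem dd1_Ph1 (φ : Gam g) (m : Fm g) : dd1 g (Ph1 φ m) = am (ro g φ).toMonoidHom (dd1 g m) := by
  show dd1 g (∑ i, am (ro g φ).toMonoidHom (m i) • D ((φ : MulAut (F g)) (FreeGroup.of i))) = _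
  rw [dd1_apply m, map_sum, map_sum]
  refine Finset.sum_congr rfl fun i _ => ?_
  rw [map_smul, dd1_D, map_mul, map_sub, map_one, am_sg, smul_eq_mul]
  rfl

private theorem QMap_hh2_mul (x u v : Pg g) : hh2 (x * u) (x * v) = sg x • hh2 u v := by
  unfold hh2
  have h : (x * u)⁻¹ * (x * v) = u⁻¹ * v := by
    rw [mul_inv_rev, mul_assoc, inv_mul_cancel_left]
  rw [h, sg_mul, mul_smul]

private theorem QMap_uniq [NeZero g] {a b : La g} (h : a • D (zeta g) = b • D (zeta g)) : a = b := by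
  have h1 : (a - b) • D (zeta g) = 0 := by rw [sub_smul, h, sub_self]
  exact sub_eq_zero.1 (inj2 h1)

private theorem QMap_ta_mul [NeZero g] (x u v t : Pg g) :
    ta (x * u) (x * v) (x * t) = sg x * ta u v t := by
  apply QMap_uniq
  rw [← ta_spec, QMap_hh2_mul, QMap_hh2_mul, QMap_hh2_mul, mul_smul, ← ta_spec, smul_add, smul_sub]

private theorem QMap_ta4 [NeZero g] (u v t s : Pg g) :
    ta v t s - ta u t s + ta u v s - ta u v t = 0 := by
  apply inj2
  rw [sub_smul, add_smul, sub_smul, ← ta_spec, ← ta_spec, ← ta_spec, ← ta_spec]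
  abel

private theorem QMap_ac_bd (r : La g) (c : Ch (Pg g)) : bd (ac r c) = ac r (bd c) := by
  have h : (⟨⟨fun r => bd (ac r c), by rw [map_zero, LinearMap.zero_apply, map_zero]⟩, fun r s => by
      show bd (ac (r + s) c) = bd (ac r c) + bd (ac s c)
      rw [map_add, LinearMap.add_apply, map_add]⟩ : La g →+ Ch (Pg g)) =
      ⟨⟨fun r => ac r (bd c), by rw [map_zero, LinearMap.zero_apply]⟩, fun r s => by
      show ac (r + s) (bd c) = ac r (bd c) + ac s (bd c)
      rw [map_add, LinearMap.add_apply]⟩ := by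
    apply GA_ext
    intro u
    show bd (ac (sg u) c) = ac (sg u) (bd c)
    rw [ac_sg]
    exact bc_bd_aL u c
  exact DFunLike.congr_fun h r

private theorem QMap_ac_mem {q : ℕ} (r : La g) {c : Ch (Pg g)} (hc : c ∈ Sup (Len Set.univ q)) :
    ac r c ∈ Sup (Len (Set.univ : Set (List (Pg g))) q) := by
  set N : Submodule ℤ (Ch (Pg g)) := Sup (Len (Set.univ : Set (List (Pg g))) q) with hN
  have h : (⟨⟨fun r => N.mkQ (ac r c), by rw [map_zero, LinearMap.zero_apply, map_zero]⟩, fun r s => by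
      show N.mkQ (ac (r + s) c) = N.mkQ (ac r c) + N.mkQ (ac s c)
      rw [map_add, LinearMap.add_apply, map_add]⟩ : La g →+ (Ch (Pg g) ⧸ N)) = 0 := by
    apply GA_ext
    intro u
    show N.mkQ (ac (sg u) c) = 0
    rw [ac_sg, Submodule.mkQ_apply, Submodule.Quotient.mk_eq_zero]
    exact Sup_aL u hc
  have h1 : N.mkQ (ac r c) = 0 := DFunLike.congr_fun h r
  rw [Submodule.mkQ_apply, Submodule.Quotient.mk_eq_zero] at h1
  exact h1

private theorem QMap_pt (u : Pg g) : ac (sg u) (single [1] 1 : Ch (Pg g)) = single [u] 1 := by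
  rw [ac_sg, aL_single]
  simp only [List.map_cons, List.map_nil, smul_eq_mul, mul_one]

private theorem QMap_bd2 (u v : Pg g) : bdL [u, v] = single [v] 1 - single [u] 1 := by
  simp only [bdL_cons, bdL_nil, map_zero, sub_zero, cone_single]

private theorem QMap_bd3 (u v t : Pg g) :
    bdL [u, v, t] = single [v, t] 1 - single [u, t] 1 + single [u, v] 1 := by
  simp only [bdL_cons, bdL_nil, map_zero, sub_zero, cone_single, map_sub]
  abel

private theorem QMap_bd4 (u v t s : Pg g) : bdL [u, v, t, s] =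
    single [v, t, s] 1 - single [u, t, s] 1 + single [u, v, s] 1 - single [u, v, t] 1 := by
  simp only [bdL_cons, bdL_nil, map_zero, sub_zero, cone_single, map_sub]
  abel

private theorem QMap_bd_f1 (m : Fm g) : bd (f1 g m) = ac (dd1 g m) (single [1] 1) := by
  show bd (∑ i, ac (m i) (e12 g i)) = _
  rw [map_sum, dd1_apply, map_sum, LinearMap.sum_apply]
  refine Finset.sum_congr rfl fun i _ => ?_
  rw [QMap_ac_bd, map_mul, Module.End.mul_apply, map_sub, LinearMap.sub_apply, QMap_pt, map_one,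
    Module.End.one_apply]
  unfold e12
  rw [bd_single, one_smul, QMap_bd2]

private theorem QMap_f1_mem (m : Fm g) : f1 g m ∈ Sup (Len (Set.univ : Set (List (Pg g))) 2) := by
  show (∑ i, ac (m i) (e12 g i)) ∈ _
  refine Submodule.sum_mem _ fun i _ => QMap_ac_mem _ ?_
  exact single_mem_Sup (S := Len (Set.univ : Set (List (Pg g))) 2) ⟨trivial, rfl⟩ 1

private theorem QMap_bd_f2 (r : La g) : bd (f2 g r) = f1 g (r • D (zeta g)) := by
  show bd (ac r (cone (1 : Pg g) (f1 g (D (zeta g))))) = _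
  rw [QMap_ac_bd, bd_cone, QMap_bd_f1, dd1_D, pr_zeta, sg_one, sub_self, map_zero,
    LinearMap.zero_apply, map_zero, sub_zero, f1_smul]

private theorem QMap_f2_mul (r s : La g) : f2 g (r * s) = ac r (f2 g s) := by
  show ac (r * s) (cone (1 : Pg g) (f1 g (D (zeta g)))) = ac r (ac s (cone (1 : Pg g) (f1 g (D (zeta g)))))
  rw [map_mul, Module.End.mul_apply]

private theorem QMap_sl [NeZero g] (φ : Gam g) (u : Pg g) (l : List (Pg g)) :
    FqL φ (l.map (u • ·)) = aL ((ro g φ).toMonoidHom u) (FqL φ l) := by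
  match l with
  | [] =>
    show single [] 1 = aL ((ro g φ).toMonoidHom u) (single [] 1)
    rw [aL_single]
    rfl
  | [v] =>
    show single [ro g φ (u * v)] 1 = aL ((ro g φ).toMonoidHom u) (single [ro g φ v] 1)
    rw [aL_single, map_mul]
    rfl
  | [v, w] =>
    show f1 g (Ph1 φ (hh2 (u * v) (u * w))) = aL ((ro g φ).toMonoidHom u) (f1 g (Ph1 φ (hh2 v w)))
    rw [QMap_hh2_mul, Ph1_smul, f1_smul, am_sg, ac_sg]
  | [v, w, t] =>
    show f2 g (am (ro g φ).toMonoidHom (ta (u * v) (u * w) (u * t))) =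
      aL ((ro g φ).toMonoidHom u) (f2 g (am (ro g φ).toMonoidHom (ta v w t)))
    rw [QMap_ta_mul, map_mul, QMap_f2_mul, am_sg, ac_sg]
  | _ :: _ :: _ :: _ :: _ =>
    show (0 : Ch (Pg g)) = aL ((ro g φ).toMonoidHom u) 0
    rw [map_zero]

theorem sch_Fq [NeZero g] (φ : Gam g) : SCh (ro g φ).toMonoidHom (Fq φ) := by
  have hs : ∀ l : List (Pg g), Fq φ (single l 1) = FqL φ l := by
    intro l
    unfold Fq
    rw [Finsupp.linearCombination_single, one_smul]
  refine ⟨?_, ?_, ?_, ?_⟩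
  · intro u c
    have h : (Fq φ) ∘ₗ (aL u : Ch (Pg g) →ₗ[ℤ] Ch (Pg g)) =
        (aL ((ro g φ).toMonoidHom u) : Ch (Pg g) →ₗ[ℤ] Ch (Pg g)) ∘ₗ (Fq φ) := by
      apply Ch.ext_lin
      intro l
      rw [LinearMap.comp_apply, LinearMap.comp_apply, aL_single, hs, hs]
      exact QMap_sl φ u l
    exact LinearMap.congr_fun h c
  · intro c
    have h : bd ∘ₗ (Fq φ) = (Fq φ) ∘ₗ (bd : Ch (Pg g) →ₗ[ℤ] Ch (Pg g)) := by
      apply Ch.ext_lin
      intro l
      rw [LinearMap.comp_apply, LinearMap.comp_apply, hs, bd_single, one_smul]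
      match l with
      | [] =>
        show bd (single [] 1) = Fq φ (bdL [])
        rw [bd_single, bdL_nil, smul_zero, map_zero]
      | [u] =>
        show bd (single [ro g φ u] 1) = Fq φ (bdL [u])
        rw [bd_single, one_smul, bdL_cons, bdL_cons, bdL_nil, map_zero, map_zero, sub_zero, hs]
        rfl
      | [u, v] =>
        show bd (f1 g (Ph1 φ (hh2 u v))) = Fq φ (bdL [u, v])
        rw [QMap_bd2, map_sub, hs, hs, QMap_bd_f1, dd1_Ph1, dd1_hh2, map_sub, am_sg, am_sg, map_sub,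
          LinearMap.sub_apply, QMap_pt, QMap_pt]
        rfl
      | [u, v, t] =>
        show bd (f2 g (am (ro g φ).toMonoidHom (ta u v t))) = Fq φ (bdL [u, v, t])
        rw [QMap_bd3, map_add, map_sub, hs, hs, hs, QMap_bd_f2]
        show _ = f1 g (Ph1 φ (hh2 v t)) - f1 g (Ph1 φ (hh2 u t)) + f1 g (Ph1 φ (hh2 u v))
        rw [← map_sub, ← map_add, ← map_sub, ← map_add, ta_spec, Ph1_smul, Ph1_D]
        have hz : (φ : MulAut (F g)) (zeta g) = zeta g := φ.2
        rw [hz]
      | [u, v, t, s] =>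
        show bd (0 : Ch (Pg g)) = Fq φ (bdL [u, v, t, s])
        rw [QMap_bd4, map_zero, map_sub, map_add, map_sub, hs, hs, hs, hs]
        show 0 = f2 g (am (ro g φ).toMonoidHom (ta v t s)) - f2 g (am (ro g φ).toMonoidHom (ta u t s)) +
          f2 g (am (ro g φ).toMonoidHom (ta u v s)) - f2 g (am (ro g φ).toMonoidHom (ta u v t))
        rw [← map_sub, ← map_add, ← map_sub, ← map_sub, ← map_add, ← map_sub, QMap_ta4, map_zero,
          map_zero]
      | u :: v :: t :: s :: r :: l =>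
        show bd (0 : Ch (Pg g)) = Fq φ (bdL (u :: v :: t :: s :: r :: l))
        rw [map_zero]
        have h1 : (single (u :: v :: t :: s :: r :: l) 1 : Ch (Pg g)) ∈
            Sup (Len Set.univ (l.length + 4 + 1)) := by
          refine single_mem_Sup (S := Len Set.univ (l.length + 4 + 1)) ⟨trivial, ?_⟩ 1
          simp only [List.length_cons]
        have h2 := Sup_bd h1
        rw [bd_single, one_smul] at h2
        have h3 : Fq φ (bdL (u :: v :: t :: s :: r :: l)) ∈ (⊥ : Submodule ℤ (Ch (Pg g))) := by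
          refine map_Sup (Fq φ) ⊥ ?_ h2
          rintro l' ⟨-, hl'⟩
          rw [hs, Submodule.mem_bot]
          match l', hl' with
          | _ :: _ :: _ :: _ :: _, _ => rfl
        exact ((Submodule.mem_bot ℤ).1 h3).symm
    exact LinearMap.congr_fun h c
  · intro q c hc
    refine map_Sup (Fq φ) _ ?_ hc
    rintro l ⟨-, hl⟩
    rw [hs]
    match l with
    | [] => exact single_mem_Sup (S := Len Set.univ q) ⟨trivial, hl⟩ 1
    | [u] => exact single_mem_Sup (S := Len Set.univ q) (l := [ro g φ u]) ⟨trivial, hl⟩ 1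
    | [u, v] =>
      subst hl
      exact QMap_f1_mem _
    | [u, v, t] =>
      subst hl
      refine QMap_ac_mem _ ?_
      refine cone_mem_Sup (S := Len Set.univ 2) (T := Len Set.univ 3) (1 : Pg g) ?_ (QMap_f1_mem _)
      rintro l ⟨-, hl⟩
      refine ⟨trivial, ?_⟩
      rw [List.length_cons, hl]
    | _ :: _ :: _ :: _ :: _ => exact Submodule.zero_mem _
  · rw [hs]
    rfl

end TorQ
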